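import Pool.Agent.Helper18.Dub.GWDefs

/-!
# Products of Fano manifolds
-/

open scoped BigOperators
open Finset

namespace Pool.Agent.Helper1.DubProd

open Pool.Agent.Helper18.Dub

variable {ι₁ ι₂ : Type} [Fintype ι₁] [DecidableEq ι₁] [Fintype ι₂] [DecidableEq ι₂]

/-- `Z` is the genus-zero theory of the product of two Fano manifolds with theories `X` and `Y`, in
the basis `φ_a ⊗ ψ_i`: the curve classes are pairs of curve classes, the unit and the pairing are
the tensor products, and the invariants with three arbitrary insertions `φ_a ⊗ ψ_i` and further
insertions pulled back from one of the two factors are given by the product formula. -/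
structure IsProduct (X : FanoGW ι₁) (Y : FanoGW ι₂) (Z : FanoGW (ι₁ × ι₂)) where
  /-- the effective curve classes of the product -/
  curve : X.Curve × Y.Curve ≃ Z.Curve
  one : Z.one = (X.one, Y.one)
  pair : ∀ a b i j, Z.pair (a, i) (b, j) = X.pair a b * Y.pair i j
  inv : ∀ β γ a b c i j k (s : Multiset ι₁) (t : Multiset ι₂),
    Z.inv (curve (β, γ)) ({(a, i), (b, j), (c, k)} + (s.map fun x => (x, Y.one)) +
      (t.map fun y => (X.one, y))) = X.inv β ({a, b, c} + s) * Y.inv γ ({i, j, k} + t)

/-- The rank of the trace form `(φ_a, φ_b) ↦ tr (φ_a • φ_b •)` of big quantum cohomology over the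
field of fractions of `ℂ[[t]]`. This is the dimension of the generic big quantum cohomology algebra
modulo nilpotents, that is the number of its characters over an algebraic closure (the number of
distinct canonical coordinates). -/
noncomputable def traceRank {ι : Type} [Fintype ι] [DecidableEq ι] (X : FanoGW ι) : ℕ :=
  ((Matrix.of fun a b => (X.mulMat a * X.mulMat b).trace).map
    (algebraMap (MvPowerSeries ι ℂ) (FractionRing (MvPowerSeries ι ℂ)))).rank

end Pool.Agent.Helper1.DubProd
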