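import Pool.Agent.Helper18.Dub.QH

/-!
# The F-manifold identity and the derivations of big quantum cohomology
-/

open scoped BigOperators
open Finset MvPowerSeries

namespace Pool.Agent.Helper1.DubProd

open Pool.Agent.Helper18.Dub

theorem carrier_sum_apply {R : Type*} [CommRing R] {α : Type*} [Fintype α] [DecidableEq α]
    {A : AlgStr R α} {β : Type*} (s : Finset β) (f : β → A.Carrier) (i : α) :
    (∑ b ∈ s, f b) i = ∑ b ∈ s, f b i := by
  classical
  induction s using Finset.induction_on with
  | empty => rfl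
  | insert b s hb ih => rw [Finset.sum_insert hb, Finset.sum_insert hb, AlgStr.add_apply, ih]

section der

variable {ι : Type} [Fintype ι] [DecidableEq ι] (X : FanoGW ι)

/-- `Θ` is an additive map satisfying the Leibniz rule and linear over the constants. -/
structure IsDer (Θ : X.QH.Carrier → X.QH.Carrier) : Prop where
  add : ∀ x y, Θ (x + y) = Θ x + Θ y
  mul : ∀ x y, Θ (x * y) = Θ x * y + x * Θ y
  const : ∀ (c : ℂ) (x : X.QH.Carrier), Θ ((C c : MvPowerSeries ι ℂ) • x) =
    (C c : MvPowerSeries ι ℂ) • Θ x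

variable {X}

namespace IsDer

theorem zero : IsDer X (fun _ => 0) where
  add _ _ := (add_zero _).symm
  mul _ _ := by rw [zero_mul, mul_zero, add_zero]
  const _ _ := (smul_zero _).symm

theorem plus {Θ Θ' : X.QH.Carrier → X.QH.Carrier} (h : IsDer X Θ) (h' : IsDer X Θ') :
    IsDer X (fun x => Θ x + Θ' x) where
  add x y := by rw [h.add, h'.add]; abel
  mul x y := by rw [h.mul, h'.mul]; ring
  const c x := by rw [h.const, h'.const, smul_add]

theorem mul_left {Θ : X.QH.Carrier → X.QH.Carrier} (h : IsDer X Θ) (f : X.QH.Carrier) :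
    IsDer X (fun x => f * Θ x) where
  add x y := by rw [h.add]; ring
  mul x y := by rw [h.mul]; ring
  const c x := by rw [h.const, mul_smul_comm]

theorem map_zero' {Θ : X.QH.Carrier → X.QH.Carrier} (h : IsDer X Θ) : Θ 0 = 0 := by
  have := h.add 0 0
  rw [add_zero] at this
  exact left_eq_add.1 this

theorem map_sum' {Θ : X.QH.Carrier → X.QH.Carrier} (h : IsDer X Θ) {β : Type*} (s : Finset β)
    (f : β → X.QH.Carrier) : Θ (∑ b ∈ s, f b) = ∑ b ∈ s, Θ (f b) := by
  classical
  induction s using Finset.induction_on with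
  | empty => exact h.map_zero'
  | insert b s hb ih => rw [Finset.sum_insert hb, Finset.sum_insert hb, h.add, ih]

end IsDer

variable (X)

/-! ### The Euler derivation -/

/-- `Ξ(∑ x_k φ_k) = ∑ (E(x_k) + deg φ_k x_k) φ_k` -/
noncomputable def xi (x : X.QH.Carrier) : X.QH.Carrier := fun k =>
  ∑ i, X.euler i * pderiv ℂ i (x k) + C (X.deg k : ℂ) * x k

theorem xi_apply (x : X.QH.Carrier) (k : ι) : xi X x k =
    ∑ i, X.euler i * pderiv ℂ i (x k) + C (X.deg k : ℂ) * x k := rfl

/-- the Euler vector field -/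
noncomputable def ev (f : MvPowerSeries ι ℂ) : MvPowerSeries ι ℂ :=
  ∑ i, X.euler i * pderiv ℂ i f

theorem ev_add (f g : MvPowerSeries ι ℂ) : ev X (f + g) = ev X f + ev X g := by
  rw [ev, ev, ev, ← Finset.sum_add_distrib]
  refine Finset.sum_congr rfl fun i _ => ?_
  rw [map_add]; ring

theorem ev_mul (f g : MvPowerSeries ι ℂ) : ev X (f * g) = ev X f * g + f * ev X g := by
  rw [ev, ev, ev, Finset.sum_mul, Finset.mul_sum, ← Finset.sum_add_distrib]
  refine Finset.sum_congr rfl fun i _ => ?_
  rw [Derivation.leibniz, smul_eq_mul, smul_eq_mul]; ring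

theorem ev_sum {β : Type*} (s : Finset β) (f : β → MvPowerSeries ι ℂ) :
    ev X (∑ b ∈ s, f b) = ∑ b ∈ s, ev X (f b) := by
  simp only [ev, map_sum, Finset.mul_sum]
  rw [Finset.sum_comm]

theorem ev_C (c : ℂ) : ev X (C c) = 0 := by
  rw [ev]
  refine Finset.sum_eq_zero fun i _ => ?_
  rw [pderiv_C, mul_zero]

theorem ev_sc (a b k : ι) : ev X (X.sc a b k) =
    C ((X.deg a : ℂ) + (X.deg b : ℂ) - (X.deg k : ℂ)) * X.sc a b k := X.euler_sc a b k

theorem isDer_xi : IsDer X (xi X) where
  add x y := by
    funext k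
    rw [AlgStr.add_apply, xi_apply, xi_apply, xi_apply, AlgStr.add_apply]
    have := ev_add X (x k) (y k)
    rw [ev, ev, ev] at this
    rw [this]; ring
  mul x y := by
    funext k
    rw [AlgStr.add_apply, xi_apply, AlgStr.mul_apply, AlgStr.mul_apply, AlgStr.mul_apply]
    have h0 := ev_sum X (Finset.univ) (fun a => ∑ b, x a * y b * X.QH.m a b k)
    rw [ev] at h0
    rw [h0]
    rw [Finset.mul_sum, ← Finset.sum_add_distrib, ← Finset.sum_add_distrib]
    refine Finset.sum_congr rfl fun a _ => ?_
    rw [ev_sum, Finset.mul_sum, ← Finset.sum_add_distrib, ← Finset.sum_add_distrib]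
    refine Finset.sum_congr rfl fun b _ => ?_
    rw [ev_mul, ev_mul]
    have h1 : X.QH.m a b k = X.sc a b k := rfl
    rw [h1, ev_sc, xi_apply, xi_apply]
    have h2 : ∑ i, X.euler i * pderiv ℂ i (x a) = ev X (x a) := rfl
    have h3 : ∑ i, X.euler i * pderiv ℂ i (y b) = ev X (y b) := rfl
    rw [h2, h3, map_sub, map_add]
    ring
  const c x := by
    funext k
    rw [AlgStr.smul_apply, xi_apply, xi_apply, AlgStr.smul_apply]
    have h0 := ev_mul X (C c) (x k)
    rw [ev_C, zero_mul, zero_add] at h0
    rw [ev, ev] at h0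
    rw [h0]; ring





theorem xi_coord (i k : ι) : xi X ((MvPowerSeries.X i : MvPowerSeries ι ℂ) • (1 : X.QH.Carrier)) k =
    if X.one = k then X.euler i else 0 := by
  rw [xi_apply, AlgStr.smul_apply, AlgStr.one_apply]
  have h1 : X.QH.one = X.one := rfl
  rw [h1]
  by_cases h : X.one = k
  · rw [if_pos h, if_pos h, mul_one, ← h, X.deg_one, Nat.cast_zero, map_zero, zero_mul, add_zero,
      Finset.sum_eq_single i]
    · rw [pderiv_X, Pi.single_eq_same, mul_one]
    · intro j _ hj
      rw [pderiv_X, Pi.single_eq_of_ne (Ne.symm hj), mul_zero]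
    · intro h'
      exact absurd (Finset.mem_univ _) h'
  · rw [if_neg h, if_neg h, mul_zero, mul_zero, add_zero]
    refine Finset.sum_eq_zero fun j _ => ?_
    rw [map_zero, mul_zero]

/-! ### The Hertling-Manin identity -/

/-- fourth derivatives of the potential with one index raised -/
noncomputable def tt (a b c : ι) : X.QH.Carrier := fun k => pderiv ℂ c (X.sc a b k)

theorem tt_apply (a b c k : ι) : tt X a b c k = pderiv ℂ c (X.sc a b k) := rfl

theorem tt_comm (a b c : ι) : tt X a b c = tt X b a c := by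
  funext k
  rw [tt_apply, tt_apply]
  have h1 : X.sc a b k = X.sc b a k := X.QH.comm a b k
  rw [h1]

theorem tt_swap (a b c : ι) : tt X a b c = tt X c b a := by
  funext k
  rw [tt_apply, tt_apply, X.pderiv_sc]

theorem tt_swap' (a b c : ι) : tt X a b c = tt X a c b := by
  rw [tt_comm, tt_swap, tt_comm]

theorem tt_one (a b : ι) : tt X a b X.one = 0 := by
  rw [tt_swap]
  funext k
  rw [tt_apply]
  have h1 : X.sc X.one b k = if b = k then 1 else 0 := X.QH.one_mul b k
  rw [h1]
  show _ = (0 : MvPowerSeries ι ℂ)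
  split_ifs
  · rw [← map_one (C (σ := ι) (R := ℂ)), pderiv_C]
  · rw [map_zero]

theorem basis_mul_apply (a : ι) (x : X.QH.Carrier) (k : ι) :
    (X.QH.basis a * x) k = ∑ l, x l * X.sc a l k := by
  rw [AlgStr.mul_apply]
  rw [Finset.sum_eq_single a]
  · refine Finset.sum_congr rfl fun l _ => ?_
    rw [AlgStr.basis_apply, if_pos rfl, one_mul]; rfl
  · intro b _ hb
    refine Finset.sum_eq_zero fun l _ => ?_
    rw [AlgStr.basis_apply, if_neg (Ne.symm hb), zero_mul, zero_mul]
  · intro h
    exact absurd (Finset.mem_univ _) h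

/-- derivative of associativity -/
theorem assoc_deriv (a b c d : ι) :
    X.QH.basis c * tt X a b d + ∑ l, X.sc a b l • tt X l c d =
      X.QH.basis a * tt X b c d + ∑ l, X.sc b c l • tt X a l d := by
  funext k
  rw [AlgStr.add_apply, AlgStr.add_apply, basis_mul_apply, basis_mul_apply, carrier_sum_apply,
    carrier_sum_apply, ← Finset.sum_add_distrib, ← Finset.sum_add_distrib]
  have h1 := congrArg (pderiv ℂ d) (X.QH.assoc a b c k)
  rw [map_sum, map_sum] at h1
  have h2 : ∀ l, pderiv ℂ d (X.QH.m a b l * X.QH.m l c k) =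
      tt X a b d l * X.sc c l k + (X.sc a b l • tt X l c d) k := by
    intro l
    rw [Derivation.leibniz, AlgStr.smul_apply, tt_apply, tt_apply, smul_eq_mul, smul_eq_mul]
    have h3 : X.QH.m a b l = X.sc a b l := rfl
    have h4 : X.QH.m l c k = X.sc l c k := rfl
    have h5 : X.sc l c k = X.sc c l k := X.QH.comm l c k
    rw [h3, h4, ← h5]; ring
  have h6 : ∀ l, pderiv ℂ d (X.QH.m b c l * X.QH.m a l k) =
      tt X b c d l * X.sc a l k + (X.sc b c l • tt X a l d) k := by
    intro l
    rw [Derivation.leibniz, AlgStr.smul_apply, tt_apply, tt_apply, smul_eq_mul, smul_eq_mul]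
    have h3 : X.QH.m b c l = X.sc b c l := rfl
    have h4 : X.QH.m a l k = X.sc a l k := rfl
    rw [h3, h4]; ring
  rw [Finset.sum_congr rfl fun l _ => h2 l, Finset.sum_congr rfl fun l _ => h6 l] at h1
  exact h1

/-- The Hertling-Manin identity. -/
theorem hm (a b c d : ι) :
    X.QH.basis a * tt X c d b + X.QH.basis b * tt X c d a - ∑ l, X.sc a b l • tt X c d l +
      ∑ m, X.sc c d m • tt X a b m = tt X a b c * X.QH.basis d + X.QH.basis c * tt X a b d := by
  have h1 := assoc_deriv X a b c d
  have h2 := assoc_deriv X c d b a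
  have h3 := assoc_deriv X b c d a
  -- total symmetry in the first three arguments
  have e1 : ∑ l, X.sc a b l • tt X l c d = ∑ l, X.sc a b l • tt X c d l :=
    Finset.sum_congr rfl fun l _ => by rw [tt_swap X l c d, tt_comm X d c l]
  have e2 : ∑ l, X.sc c d l • tt X l b a = ∑ m, X.sc c d m • tt X a b m :=
    Finset.sum_congr rfl fun l _ => by rw [tt_swap X l b a]
  have e3 : ∑ l, X.sc b c l • tt X l d a = ∑ l, X.sc b c l • tt X a l d :=
    Finset.sum_congr rfl fun l _ => by rw [tt_swap X l d a, tt_swap' X a d l]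
  have e4 : ∑ l, X.sc c d l • tt X b l a = ∑ l, X.sc c d l • tt X a b l :=
    Finset.sum_congr rfl fun l _ => by rw [tt_comm X b l a, tt_swap X l b a]
  have f1 : tt X b c d = tt X c d b := by rw [tt_comm X b c d, tt_swap' X c b d]
  have f2 : tt X b c a = tt X a b c := by rw [tt_swap X b c a, tt_swap' X a c b]
  rw [e1] at h1
  rw [e3, e4] at h3
  rw [f1] at h1
  rw [f2] at h3
  have h4 : X.QH.basis a * tt X c d b + X.QH.basis b * tt X c d a -
      ∑ l, X.sc a b l • tt X c d l + ∑ m, X.sc c d m • tt X a b m -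
      (tt X a b c * X.QH.basis d + X.QH.basis c * tt X a b d) = 0 := by
    linear_combination -h1 - h3
  exact sub_eq_zero.1 h4

/-- coordinatewise derivative -/
noncomputable def dd (i : ι) (x : X.QH.Carrier) : X.QH.Carrier := fun k => pderiv ℂ i (x k)

theorem dd_apply (i : ι) (x : X.QH.Carrier) (k : ι) : dd X i x k = pderiv ℂ i (x k) := rfl

theorem dd_add (i : ι) (x y : X.QH.Carrier) : dd X i (x + y) = dd X i x + dd X i y := by
  funext k
  rw [dd_apply, AlgStr.add_apply, map_add]
  rfl

theorem dd_smul (i : ι) (f : MvPowerSeries ι ℂ) (x : X.QH.Carrier) :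
    dd X i (f • x) = pderiv ℂ i f • x + f • dd X i x := by
  funext k
  rw [dd_apply, AlgStr.smul_apply, Derivation.leibniz, AlgStr.add_apply, AlgStr.smul_apply,
    AlgStr.smul_apply, dd_apply, smul_eq_mul, smul_eq_mul]
  ring

theorem dd_mul (i : ι) (x y : X.QH.Carrier) : dd X i (x * y) = dd X i x * y + x * dd X i y +
    ∑ c, ∑ d, (x c * y d) • tt X c d i := by
  funext k
  rw [AlgStr.add_apply, AlgStr.add_apply, AlgStr.mul_apply, AlgStr.mul_apply, dd_apply,
    AlgStr.mul_apply, map_sum, carrier_sum_apply, ← Finset.sum_add_distrib,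
    ← Finset.sum_add_distrib]
  refine Finset.sum_congr rfl fun c _ => ?_
  rw [map_sum, carrier_sum_apply, ← Finset.sum_add_distrib, ← Finset.sum_add_distrib]
  refine Finset.sum_congr rfl fun d _ => ?_
  rw [Derivation.leibniz, Derivation.leibniz, AlgStr.smul_apply, tt_apply, dd_apply, dd_apply,
    smul_eq_mul, smul_eq_mul, smul_eq_mul, smul_eq_mul]
  have h1 : X.QH.m c d k = X.sc c d k := rfl
  rw [h1]
  ring

theorem eq_sum_basis (x : X.QH.Carrier) : x = ∑ c, x c • X.QH.basis c := by
  conv_lhs => rw [← X.QH.basis.sum_repr x]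
  rfl

/-- The Hamiltonian derivation attached to the relation `φ_a φ_b = ∑ c_ab^k φ_k`. -/
noncomputable def th (a b : ι) (x : X.QH.Carrier) : X.QH.Carrier :=
  X.QH.basis a * dd X b x + X.QH.basis b * dd X a x - ∑ l, X.sc a b l • dd X l x +
    ∑ c, x c • tt X a b c

theorem isDer_th (a b : ι) : IsDer X (th X a b) where
  add x y := by
    simp only [th, dd_add, mul_add, smul_add, Finset.sum_add_distrib, AlgStr.add_apply, add_smul]
    abel
  const c x := by
    have h1 : ∀ i, dd X i ((C c : MvPowerSeries ι ℂ) • x) =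
        (C c : MvPowerSeries ι ℂ) • dd X i x := by
      intro i
      rw [dd_smul, pderiv_C, zero_smul, zero_add]
    simp only [th, h1, AlgStr.smul_apply]
    rw [smul_add, smul_sub, smul_add, Finset.smul_sum, Finset.smul_sum, mul_smul_comm,
      mul_smul_comm]
    congr 1
    · congr 1
      exact Finset.sum_congr rfl fun l _ => smul_comm _ _ _
    · exact Finset.sum_congr rfl fun l _ => by rw [mul_smul]
  mul x y := by
    have hsum : ∀ i, (∑ c, ∑ d, (x c * y d) • tt X c d i : X.QH.Carrier) =
        ∑ c, ∑ d, (x c * y d) • tt X c d i := fun i => rfl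
    -- the bilinear error term vanishes
    have key : X.QH.basis a * (∑ c, ∑ d, (x c * y d) • tt X c d b) +
        X.QH.basis b * (∑ c, ∑ d, (x c * y d) • tt X c d a) -
        ∑ l, X.sc a b l • (∑ c, ∑ d, (x c * y d) • tt X c d l) +
        ∑ m, (x * y) m • tt X a b m =
        (∑ c, x c • tt X a b c) * y + x * (∑ d, y d • tt X a b d) := by
      have e1 : X.QH.basis a * (∑ c, ∑ d, (x c * y d) • tt X c d b) =
          ∑ c, ∑ d, (x c * y d) • (X.QH.basis a * tt X c d b) := by
        rw [Finset.mul_sum]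
        refine Finset.sum_congr rfl fun c _ => ?_
        rw [Finset.mul_sum]
        refine Finset.sum_congr rfl fun d _ => ?_
        rw [mul_smul_comm]
      have e2 : X.QH.basis b * (∑ c, ∑ d, (x c * y d) • tt X c d a) =
          ∑ c, ∑ d, (x c * y d) • (X.QH.basis b * tt X c d a) := by
        rw [Finset.mul_sum]
        refine Finset.sum_congr rfl fun c _ => ?_
        rw [Finset.mul_sum]
        refine Finset.sum_congr rfl fun d _ => ?_
        rw [mul_smul_comm]
      have e3 : ∑ l, X.sc a b l • (∑ c, ∑ d, (x c * y d) • tt X c d l) =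
          ∑ c, ∑ d, (x c * y d) • ∑ l, X.sc a b l • tt X c d l := by
        simp only [Finset.smul_sum]
        rw [Finset.sum_comm]
        refine Finset.sum_congr rfl fun c _ => ?_
        rw [Finset.sum_comm]
        refine Finset.sum_congr rfl fun d _ => ?_
        refine Finset.sum_congr rfl fun l _ => ?_
        rw [smul_comm]
      have e4 : ∑ m, (x * y) m • tt X a b m =
          ∑ c, ∑ d, (x c * y d) • ∑ m, X.sc c d m • tt X a b m := by
        have h1 : ∀ m, (x * y) m = ∑ c, ∑ d, x c * y d * X.sc c d m := fun m =>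
          AlgStr.mul_apply _ _ _ _
        simp only [h1, Finset.sum_smul, Finset.smul_sum]
        rw [Finset.sum_comm]
        refine Finset.sum_congr rfl fun c _ => ?_
        rw [Finset.sum_comm]
        refine Finset.sum_congr rfl fun d _ => ?_
        refine Finset.sum_congr rfl fun l _ => ?_
        rw [mul_smul]
      have e5 : (∑ c, x c • tt X a b c) * y =
          ∑ c, ∑ d, (x c * y d) • (tt X a b c * X.QH.basis d) := by
        conv_lhs => rw [eq_sum_basis X y]
        rw [Finset.sum_mul]
        refine Finset.sum_congr rfl fun c _ => ?_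
        rw [Finset.mul_sum]
        refine Finset.sum_congr rfl fun d _ => ?_
        rw [smul_mul_smul_comm]
      have e6 : x * (∑ d, y d • tt X a b d) =
          ∑ c, ∑ d, (x c * y d) • (X.QH.basis c * tt X a b d) := by
        conv_lhs => rw [eq_sum_basis X x]
        rw [Finset.sum_mul]
        refine Finset.sum_congr rfl fun c _ => ?_
        rw [Finset.mul_sum]
        refine Finset.sum_congr rfl fun d _ => ?_
        rw [smul_mul_smul_comm]
      rw [e1, e2, e3, e4, e5, e6]
      simp only [← Finset.sum_add_distrib, ← Finset.sum_sub_distrib]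
      refine Finset.sum_congr rfl fun c _ => Finset.sum_congr rfl fun d _ => ?_
      rw [← smul_add, ← smul_sub, ← smul_add, ← smul_add, hm]
    simp only [th]
    rw [dd_mul, dd_mul]
    have e7 : ∑ l, X.sc a b l • dd X l (x * y) = (∑ l, X.sc a b l • dd X l x) * y +
        x * (∑ l, X.sc a b l • dd X l y) +
        ∑ l, X.sc a b l • (∑ c, ∑ d, (x c * y d) • tt X c d l) := by
      rw [Finset.sum_mul, Finset.mul_sum, ← Finset.sum_add_distrib, ← Finset.sum_add_distrib]
      refine Finset.sum_congr rfl fun l _ => ?_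
      rw [dd_mul, smul_add, smul_add, smul_mul_assoc, mul_smul_comm]
    rw [e7]
    linear_combination key

theorem th_coord (a b i : ι) :
    th X a b ((MvPowerSeries.X i : MvPowerSeries ι ℂ) • (1 : X.QH.Carrier)) =
      (if b = i then X.QH.basis a else 0) + (if a = i then X.QH.basis b else 0) -
        X.sc a b i • (1 : X.QH.Carrier) := by
  have h1 : ∀ j, dd X j (1 : X.QH.Carrier) = 0 := by
    intro j
    funext k
    rw [dd_apply, AlgStr.one_apply]
    show _ = (0 : MvPowerSeries ι ℂ)
    split_ifs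
    · rw [← map_one (C (σ := ι) (R := ℂ)), pderiv_C]
    · rw [map_zero]
  have h2 : ∀ j, dd X j ((MvPowerSeries.X i : MvPowerSeries ι ℂ) • (1 : X.QH.Carrier)) =
      if j = i then 1 else 0 := by
    intro j
    rw [dd_smul, h1, smul_zero, add_zero, pderiv_X]
    by_cases h : i = j
    · subst h; simp
    · rw [Pi.single_eq_of_ne h, if_neg (Ne.symm h), zero_smul]
  have h3 : ∑ c, ((MvPowerSeries.X i : MvPowerSeries ι ℂ) • (1 : X.QH.Carrier)) c • tt X a b c =
      0 := by
    refine Finset.sum_eq_zero fun c _ => ?_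
    rw [AlgStr.smul_apply, AlgStr.one_apply]
    by_cases h : X.QH.one = c
    · have h' : c = X.one := h.symm
      rw [h', tt_one, smul_zero]
    · rw [if_neg h, mul_zero, zero_smul]
  rw [th, h3, add_zero, h2, h2]
  have h4 : ∑ l, X.sc a b l • dd X l ((MvPowerSeries.X i : MvPowerSeries ι ℂ) •
      (1 : X.QH.Carrier)) = X.sc a b i • (1 : X.QH.Carrier) := by
    rw [Finset.sum_eq_single i]
    · rw [h2, if_pos rfl]
    · intro l _ hl
      rw [h2, if_neg hl, smul_zero]
    · intro h
      exact absurd (Finset.mem_univ _) h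
  rw [h4]
  simp only [mul_ite, mul_one, mul_zero]

end der

end Pool.Agent.Helper1.DubProd
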