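import Pool.Agent.Helper18.Dub.Gen

/-!
# Reducedness along a coordinate subspace from a derivation of Euler type
-/

open scoped BigOperators
open Finset MvPowerSeries

namespace Pool.Agent.Helper1.DubProd

open Pool.Agent.Helper18.Dub

section fil

variable {ι κ : Type*} [Fintype ι]

open Classical in
/-- the degree of a monomial in the variables outside the range of `e` -/
noncomputable def nd (e : κ ↪ ι) (m : ι →₀ ℕ) : ℕ := ∑ j, if j ∈ Set.range e then 0 else m j

variable (e : κ ↪ ι)

theorem nd_add (m m' : ι →₀ ℕ) : nd e (m + m') = nd e m + nd e m' := by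
  classical
  rw [nd, nd, nd, ← Finset.sum_add_distrib]
  refine Finset.sum_congr rfl fun j _ => ?_
  split_ifs
  · rfl
  · rfl

theorem nd_single {j : ι} (hj : j ∉ Set.range e) : nd e (Finsupp.single j 1) = 1 := by
  classical
  rw [nd, Finset.sum_eq_single j]
  · rw [if_neg hj, Finsupp.single_eq_same]
  · intro b _ hb
    split_ifs
    · rfl
    · rw [Finsupp.single_eq_of_ne hb]
  · intro h
    exact absurd (Finset.mem_univ j) h

theorem nd_pos_iff (m : ι →₀ ℕ) : 0 < nd e m ↔ ∃ j, j ∉ Set.range e ∧ m j ≠ 0 := by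
  classical
  constructor
  · intro h
    rw [nd] at h
    obtain ⟨j, _, hj⟩ := Finset.exists_ne_zero_of_sum_ne_zero h.ne'
    by_cases hj' : j ∈ Set.range e
    · rw [if_pos hj'] at hj; exact absurd rfl hj
    · rw [if_neg hj'] at hj; exact ⟨j, hj', hj⟩
  · rintro ⟨j, hj, hm⟩
    have : (if j ∈ Set.range e then 0 else m j) ≤ nd e m :=
      Finset.single_le_sum (f := fun j => if j ∈ Set.range e then 0 else m j)
        (fun _ _ => Nat.zero_le _) (Finset.mem_univ j)
    rw [if_neg hj] at this
    omega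

/-- all monomials have degree at least `k` in the variables outside the range of `e` -/
def Fil (k : ℕ) (r : MvPowerSeries ι ℂ) : Prop := ∀ m, nd e m < k → coeff m r = 0

variable {e}

theorem Fil.mono {k l : ℕ} {r : MvPowerSeries ι ℂ} (h : Fil e k r) (hl : l ≤ k) : Fil e l r :=
  fun m hm => h m (by omega)

theorem Fil.zero (k : ℕ) : Fil e k (0 : MvPowerSeries ι ℂ) := fun m _ => map_zero _

theorem fil_zero (r : MvPowerSeries ι ℂ) : Fil e 0 r := fun m hm => by omega

theorem Fil.add {k : ℕ} {r s : MvPowerSeries ι ℂ} (h : Fil e k r) (h' : Fil e k s) :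
    Fil e k (r + s) := fun m hm => by rw [map_add, h m hm, h' m hm, add_zero]

theorem Fil.neg {k : ℕ} {r : MvPowerSeries ι ℂ} (h : Fil e k r) : Fil e k (-r) :=
  fun m hm => by rw [map_neg, h m hm, neg_zero]

theorem Fil.sub {k : ℕ} {r s : MvPowerSeries ι ℂ} (h : Fil e k r) (h' : Fil e k s) :
    Fil e k (r - s) := fun m hm => by rw [map_sub, h m hm, h' m hm, sub_zero]

theorem Fil.sum {k : ℕ} {β : Type*} (s : Finset β) (f : β → MvPowerSeries ι ℂ)
    (h : ∀ b ∈ s, Fil e k (f b)) : Fil e k (∑ b ∈ s, f b) := fun m hm => by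
  rw [map_sum]
  exact Finset.sum_eq_zero fun b hb => h b hb m hm

theorem Fil.mul {k l : ℕ} {r s : MvPowerSeries ι ℂ} (h : Fil e k r) (h' : Fil e l s) :
    Fil e (k + l) (r * s) := fun m hm => by
  classical
  rw [coeff_mul]
  refine Finset.sum_eq_zero fun p hp => ?_
  rw [Finset.HasAntidiagonal.mem_antidiagonal] at hp
  rw [← hp, nd_add] at hm
  by_cases h1 : nd e p.1 < k
  · rw [h _ h1, zero_mul]
  · rw [h' p.2 (by omega), mul_zero]

theorem Fil.mul_left {k : ℕ} {r : MvPowerSeries ι ℂ} (h : Fil e k r) (s : MvPowerSeries ι ℂ) :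
    Fil e k (s * r) := by
  have := (fil_zero (e := e) s).mul h
  rwa [zero_add] at this

theorem Fil.mul_right {k : ℕ} {r : MvPowerSeries ι ℂ} (h : Fil e k r) (s : MvPowerSeries ι ℂ) :
    Fil e k (r * s) := by
  rw [mul_comm]; exact h.mul_left s

theorem fil_X {j : ι} (hj : j ∉ Set.range e) : Fil e 1 (X j : MvPowerSeries ι ℂ) := by
  classical
  intro m hm
  rw [coeff_X]
  rw [if_neg]
  rintro rfl
  rw [nd_single e hj] at hm
  omega

theorem Fil.X_mul {k : ℕ} {r : MvPowerSeries ι ℂ} (h : Fil e k r) {j : ι}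
    (hj : j ∉ Set.range e) : Fil e (k + 1) (X j * r) := by
  have := (fil_X hj).mul h
  rwa [add_comm] at this

theorem eq_zero_of_fil {r : MvPowerSeries ι ℂ} (h : ∀ k, Fil e k r) : r = 0 := by
  ext m
  rw [h (nd e m + 1) m (by omega), map_zero]

/-- Division: a series of filtration `k + 1` is a combination of the variables outside the range
with coefficients of filtration `k`. -/
theorem Fil.divide {k : ℕ} {r : MvPowerSeries ι ℂ} (h : Fil e (k + 1) r) :
    ∃ g : ι → MvPowerSeries ι ℂ, (∀ j, Fil e k (g j)) ∧ (∀ j ∈ Set.range e, g j = 0) ∧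
      r = ∑ j, X j * g j := by
  classical
  -- choice of a variable for every monomial
  have hex : ∀ m : ι →₀ ℕ, ∃ j : Option ι, (0 < nd e m → ∃ i, j = some i ∧ i ∉ Set.range e ∧
      m i ≠ 0) ∧ (nd e m = 0 → j = none) := by
    intro m
    by_cases hm : 0 < nd e m
    · obtain ⟨i, hi, hmi⟩ := (nd_pos_iff e m).1 hm
      exact ⟨some i, fun _ => ⟨i, rfl, hi, hmi⟩, fun h0 => by omega⟩
    · exact ⟨none, fun h0 => absurd h0 hm, fun _ => rfl⟩
  choose c hc1 hc2 using hex
  let g : ι → MvPowerSeries ι ℂ := fun j m =>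
    if c (m + Finsupp.single j 1) = some j then coeff (m + Finsupp.single j 1) r else 0
  have hg : ∀ j m, coeff m (g j) =
      if c (m + Finsupp.single j 1) = some j then coeff (m + Finsupp.single j 1) r else 0 :=
    fun j m => rfl
  have hrange : ∀ j m, c m = some j → j ∉ Set.range e := by
    intro j m hj
    by_cases h0 : nd e m = 0
    · rw [hc2 m h0] at hj; cases hj
    · obtain ⟨i, hi, hi', _⟩ := hc1 m (by omega)
      rw [hi] at hj
      cases hj
      exact hi'
  refine ⟨g, ?_, ?_, ?_⟩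
  · intro j m hm
    rw [hg]
    split_ifs with hcj
    · apply h
      rw [nd_add, nd_single e (hrange j _ hcj)]
      omega
    · rfl
  · intro j hj
    ext m
    rw [hg, if_neg, map_zero]
    intro hcj
    exact hrange j _ hcj hj
  · ext m
    rw [map_sum]
    have hXg : ∀ j, coeff m (X j * g j) = if c m = some j then coeff m r else 0 := by
      intro j
      by_cases hmj : Finsupp.single j 1 ≤ m
      · have hm' : m = (m - Finsupp.single j 1) + Finsupp.single j 1 :=
          (tsub_add_cancel_of_le hmj).symm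
        conv_lhs => rw [hm', add_comm]
        rw [X, coeff_add_monomial_mul, one_mul, hg, ← hm']
      · rw [X, coeff_monomial_mul, if_neg hmj, if_neg]
        intro hcj
        by_cases h0 : nd e m = 0
        · rw [hc2 m h0] at hcj; cases hcj
        · obtain ⟨i, hi, _, hi'⟩ := hc1 m (by omega)
          rw [hi] at hcj
          cases hcj
          apply hmj
          rw [Finsupp.single_le_iff]
          omega
    rw [Finset.sum_congr rfl fun j _ => hXg j]
    by_cases h0 : nd e m = 0
    · rw [h m (by omega)]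
      simp
    · obtain ⟨i, hi, _, _⟩ := hc1 m (by omega)
      rw [hi]
      simp

/-- the kernel of the restriction to the coordinate subspace -/
theorem fil_one_iff (r : MvPowerSeries ι ℂ) : Fil e 1 r ↔ killCompl e r = 0 := by
  classical
  constructor
  · intro h
    ext m
    rw [coeff_killCompl, map_zero]
    apply h
    have : ¬ 0 < nd e (Finsupp.embDomain e m) := by
      rw [nd_pos_iff]
      rintro ⟨j, hj, hj'⟩
      exact hj' (Finsupp.embDomain_of_notMem_range _ _ _ hj)
    omega
  · intro h m hm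
    have hsupp : (m.support : Set ι) ⊆ Set.range e := by
      intro j hj
      by_contra hj'
      have : 0 < nd e m := (nd_pos_iff e m).2 ⟨j, hj', Finsupp.mem_support_iff.1 hj⟩
      omega
    have h1 : Finsupp.embDomain e (m.comapDomain e e.injective.injOn) = m :=
      Finsupp.embDomain_comapDomain hsupp
    rw [← h1, ← coeff_killCompl, h, map_zero]

end fil

section red

variable {ι κ : Type} [Fintype ι] {e : κ ↪ ι} {α : Type*} [Fintype α] [DecidableEq α]
  (A : AlgStr (MvPowerSeries ι ℂ) α)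

/-- filtration on the algebra -/
def FilO (e : κ ↪ ι) (k : ℕ) (x : A.Carrier) : Prop := ∀ i, Fil e k (x i)

variable {A}

theorem FilO.add {k : ℕ} {x y : A.Carrier} (h : FilO A e k x) (h' : FilO A e k y) :
    FilO A e k (x + y) := fun i => (h i).add (h' i)

theorem FilO.sub {k : ℕ} {x y : A.Carrier} (h : FilO A e k x) (h' : FilO A e k y) :
    FilO A e k (x - y) := fun i => (h i).sub (h' i)

theorem FilO.smul {k : ℕ} {x : A.Carrier} (h : FilO A e k x) (r : MvPowerSeries ι ℂ) :
    FilO A e k (r • x) := fun i => (h i).mul_left r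

theorem FilO.X_smul {k : ℕ} {x : A.Carrier} (h : FilO A e k x) {j : ι} (hj : j ∉ Set.range e) :
    FilO A e (k + 1) ((X j : MvPowerSeries ι ℂ) • x) := fun i => (h i).X_mul hj

theorem FilO.mono {k l : ℕ} {x : A.Carrier} (h : FilO A e k x) (hl : l ≤ k) : FilO A e l x :=
  fun i => (h i).mono hl

theorem filO_sum_apply {β : Type*} (s : Finset β) (f : β → A.Carrier) (i : α) :
    (∑ b ∈ s, f b) i = ∑ b ∈ s, f b i := by
  classical
  induction s using Finset.induction_on with
  | empty => rfl
  | insert b s hb ih => rw [Finset.sum_insert hb, Finset.sum_insert hb, AlgStr.add_apply, ih]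

theorem FilO.sum {k : ℕ} {β : Type*} (s : Finset β) (f : β → A.Carrier)
    (h : ∀ b ∈ s, FilO A e k (f b)) : FilO A e k (∑ b ∈ s, f b) := fun i => by
  rw [filO_sum_apply]
  exact Fil.sum _ _ fun b hb => h b hb i

theorem FilO.divide {k : ℕ} {x : A.Carrier} (h : FilO A e (k + 1) x) :
    ∃ y : ι → A.Carrier, (∀ j, FilO A e k (y j)) ∧ (∀ j ∈ Set.range e, y j = 0) ∧
      x = ∑ j, (X j : MvPowerSeries ι ℂ) • y j := by
  choose g hg1 hg2 hg3 using fun i => (h i).divide
  refine ⟨fun j i => g i j, fun j i => hg1 i j, fun j hj => ?_, ?_⟩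
  · funext i
    exact hg2 i j hj
  · funext i
    rw [filO_sum_apply]
    exact hg3 i

theorem filO_one_iff (x : A.Carrier) :
    FilO A e 1 x ↔ A.mapHom (killCompl (R := ℂ) e).toRingHom x = 0 := by
  constructor
  · intro h
    funext i
    rw [AlgStr.mapHom_apply]
    exact (fil_one_iff _).1 (h i)
  · intro h i
    rw [fil_one_iff]
    have := congrFun h i
    rwa [AlgStr.mapHom_apply] at this

/-- derivation of Euler type along the directions outside the range of `e` -/
structure IsEulerType (e : κ ↪ ι) (Θ : A.Carrier → A.Carrier) : Prop where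
  add : ∀ x y, Θ (x + y) = Θ x + Θ y
  mul : ∀ x y, Θ (x * y) = Θ x * y + x * Θ y
  const : ∀ (c : ℂ) (x : A.Carrier), Θ ((C c : MvPowerSeries ι ℂ) • x) =
    (C c : MvPowerSeries ι ℂ) • Θ x
  coord : ∀ j, j ∉ Set.range e →
    Θ ((X j : MvPowerSeries ι ℂ) • (1 : A.Carrier)) = (X j : MvPowerSeries ι ℂ) • (1 : A.Carrier)
  fil : ∀ x, FilO A e 1 (Θ x)

namespace IsEulerType

variable {Θ : A.Carrier → A.Carrier} (h : IsEulerType e Θ)

include h

theorem map_zero' : Θ 0 = 0 := by
  have := h.add 0 0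
  rw [add_zero] at this
  exact left_eq_add.1 this

theorem map_sub' (x y : A.Carrier) : Θ (x - y) = Θ x - Θ y := by
  have := h.add (x - y) y
  rw [sub_add_cancel] at this
  rw [this]; abel

theorem map_sum' {β : Type*} (s : Finset β) (f : β → A.Carrier) :
    Θ (∑ b ∈ s, f b) = ∑ b ∈ s, Θ (f b) := by
  classical
  induction s using Finset.induction_on with
  | empty => exact h.map_zero'
  | insert b s hb ih => rw [Finset.sum_insert hb, Finset.sum_insert hb, h.add, ih]

theorem X_smul {j : ι} (hj : j ∉ Set.range e) (x : A.Carrier) :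
    Θ ((X j : MvPowerSeries ι ℂ) • x) = (X j : MvPowerSeries ι ℂ) • (x + Θ x) := by
  have h1 : (X j : MvPowerSeries ι ℂ) • x = ((X j : MvPowerSeries ι ℂ) • (1 : A.Carrier)) * x := by
    rw [smul_mul_assoc, one_mul]
  rw [h1, h.mul, h.coord j hj, smul_mul_assoc, smul_mul_assoc, one_mul, one_mul, smul_add]

/-- `Θ` is multiplication by `k` on the `k`-th graded piece. -/
theorem graded (k : ℕ) : ∀ x, FilO A e k x →
    FilO A e (k + 1) (Θ x - (C (k : ℂ) : MvPowerSeries ι ℂ) • x) := by
  induction k with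
  | zero =>
    intro x _
    have : (C ((0 : ℕ) : ℂ) : MvPowerSeries ι ℂ) • x = 0 := by
      rw [Nat.cast_zero, map_zero, zero_smul]
    rw [this, sub_zero]
    exact h.fil x
  | succ k ih =>
    intro x hx
    obtain ⟨y, hy1, hy2, rfl⟩ := hx.divide
    rw [h.map_sum', Finset.smul_sum, ← Finset.sum_sub_distrib]
    refine FilO.sum _ _ fun j _ => ?_
    by_cases hj : j ∈ Set.range e
    · rw [hy2 j hj, smul_zero, smul_zero, h.map_zero', sub_zero]
      exact fun i => Fil.zero _
    · rw [h.X_smul hj, smul_comm, ← smul_sub]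
      refine FilO.X_smul ?_ hj
      have h1 : y j + Θ (y j) - (C ((k + 1 : ℕ) : ℂ) : MvPowerSeries ι ℂ) • y j =
          Θ (y j) - (C (k : ℂ) : MvPowerSeries ι ℂ) • y j := by
        rw [Nat.cast_succ, map_add, map_one, add_smul, one_smul]
        abel
      rw [h1]
      exact ih _ (hy1 j)

theorem fil_of_fil {k : ℕ} {x : A.Carrier} (hx : FilO A e k x) : FilO A e k (Θ x) := by
  have h1 := (h.graded k x hx).mono (Nat.le_succ k)
  have h2 := h1.add (hx.smul (C (k : ℂ)))
  rwa [sub_add_cancel] at h2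

theorem fil_succ_of_ker {k : ℕ} (hk : k ≠ 0) {x : A.Carrier} (hx : FilO A e k x)
    (h0 : Θ x = 0) : FilO A e (k + 1) x := by
  have h1 := h.graded k x hx
  rw [h0, zero_sub] at h1
  have h2 := h1.smul (C (-(k : ℂ)⁻¹))
  have h3 : (C (-(k : ℂ)⁻¹) : MvPowerSeries ι ℂ) • -((C (k : ℂ) : MvPowerSeries ι ℂ) • x) = x := by
    rw [smul_neg, smul_smul, ← map_mul, neg_mul, inv_mul_cancel₀ (Nat.cast_ne_zero.2 hk), map_neg,
      map_one, neg_smul, neg_neg, one_smul]
  rwa [h3] at h2

theorem eq_zero_of_ker {x : A.Carrier} (hx : FilO A e 1 x) (h0 : Θ x = 0) : x = 0 := by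
  have h1 : ∀ k, FilO A e (k + 1) x := by
    intro k
    induction k with
    | zero => exact hx
    | succ k ih => exact h.fil_succ_of_ker (Nat.succ_ne_zero k) ih h0
  funext i
  exact eq_zero_of_fil (e := e) fun k => (h1 k i).mono (Nat.le_succ k)

omit h in
/-- the partial products `∏_{1 ≤ k ≤ n} (1 - Θ / k) f` -/
noncomputable def part (Θ : A.Carrier → A.Carrier) (f : A.Carrier) : ℕ → A.Carrier
  | 0 => f
  | n + 1 => part Θ f n - (C (((n + 1 : ℕ) : ℂ)⁻¹) : MvPowerSeries ι ℂ) • Θ (part Θ f n)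

theorem fil_part (f : A.Carrier) (n : ℕ) : FilO A e (n + 1) (Θ (part Θ f n)) := by
  induction n with
  | zero => exact h.fil f
  | succ n ih =>
    rw [part, h.map_sub', h.const]
    have h1 := h.graded (n + 1) _ ih
    have h2 := h1.smul (C (-((n + 1 : ℕ) : ℂ)⁻¹))
    have h3 : (C (-((n + 1 : ℕ) : ℂ)⁻¹) : MvPowerSeries ι ℂ) •
        (Θ (Θ (part Θ f n)) - (C ((n + 1 : ℕ) : ℂ) : MvPowerSeries ι ℂ) • Θ (part Θ f n)) =
        Θ (part Θ f n) - (C (((n + 1 : ℕ) : ℂ)⁻¹) : MvPowerSeries ι ℂ) •
          Θ (Θ (part Θ f n)) := by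
      rw [smul_sub, smul_smul, ← map_mul, neg_mul,
        inv_mul_cancel₀ (Nat.cast_ne_zero.2 (Nat.succ_ne_zero n)), map_neg, map_neg, map_one,
        neg_smul, neg_smul, one_smul]
      abel
    rw [h3] at h2
    exact h2

theorem part_sub (f : A.Carrier) (n k : ℕ) : FilO A e (n + 1) (part Θ f (n + k) - part Θ f n) := by
  induction k with
  | zero =>
    rw [add_zero, sub_self]
    exact fun i => Fil.zero _
  | succ k ih =>
    have h1 : part Θ f (n + (k + 1)) = part Θ f (n + k) -
        (C (((n + k + 1 : ℕ) : ℂ)⁻¹) : MvPowerSeries ι ℂ) • Θ (part Θ f (n + k)) := rfl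
    have h2 : part Θ f (n + (k + 1)) - part Θ f n = (part Θ f (n + k) - part Θ f n) -
        (C (((n + k + 1 : ℕ) : ℂ)⁻¹) : MvPowerSeries ι ℂ) • Θ (part Θ f (n + k)) := by
      rw [h1]; abel
    rw [h2]
    exact ih.sub (((h.fil_part f (n + k)).mono (by omega)).smul _)

/-- the projection to the kernel of `Θ` -/
theorem exists_ker (f : A.Carrier) : ∃ g : A.Carrier, Θ g = 0 ∧ FilO A e 1 (g - f) := by
  let g : A.Carrier := fun i m => coeff m (part Θ f (nd e m) i)
  have hg : ∀ i m, coeff m (g i) = coeff m (part Θ f (nd e m) i) := fun i m => rfl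
  have hgn : ∀ n, FilO A e (n + 1) (g - part Θ f n) := by
    intro n i m hm
    show coeff m (g i - part Θ f n i) = 0
    rw [map_sub, hg]
    obtain ⟨k, hk⟩ := Nat.exists_eq_add_of_le (Nat.lt_succ_iff.1 hm)
    have h1 := h.part_sub f (nd e m) k i m (Nat.lt_succ_self _)
    rw [← hk] at h1
    have h2 : coeff m (part Θ f n i - part Θ f (nd e m) i) = 0 := h1
    rw [map_sub] at h2
    linear_combination -h2
  refine ⟨g, ?_, hgn 0⟩
  have h1 : ∀ n, FilO A e (n + 1) (Θ g) := by
    intro n
    have h2 := h.fil_of_fil (hgn n)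
    rw [h.map_sub'] at h2
    have h3 := h2.add (h.fil_part f n)
    rwa [sub_add_cancel] at h3
  funext i
  exact eq_zero_of_fil (e := e) fun k => (h1 k i).mono (Nat.le_succ k)

theorem pow_ker {g : A.Carrier} (hg : Θ g = 0) (n : ℕ) : Θ (g ^ n) = 0 := by
  induction n with
  | zero =>
    rw [pow_zero]
    have := h.mul 1 1
    rw [mul_one, mul_one, one_mul] at this
    exact left_eq_add.1 this
  | succ n ih => rw [pow_succ, h.mul, ih, hg, zero_mul, mul_zero, add_zero]

/-- If the algebra is reduced, so is its restriction to the coordinate subspace. -/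
theorem isReduced_res (hred : IsReduced A.Carrier) :
    IsReduced (A.map (killCompl (R := ℂ) e).toRingHom).Carrier := by
  refine ⟨fun y hy => ?_⟩
  -- lift y
  let f : A.Carrier := fun i => rename e (y i)
  have hf : A.mapHom (killCompl (R := ℂ) e).toRingHom f = y := by
    funext i
    rw [AlgStr.mapHom_apply]
    exact killCompl_rename_app _
  obtain ⟨g, hg0, hgf⟩ := h.exists_ker f
  have hgy : A.mapHom (killCompl (R := ℂ) e).toRingHom g = y := by
    rw [filO_one_iff, map_sub, hf, sub_eq_zero] at hgf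
    exact hgf
  obtain ⟨n, hn⟩ := hy
  have h1 : FilO A e 1 (g ^ n) := by
    rw [filO_one_iff, map_pow, hgy, hn]
  have h2 : g ^ n = 0 := h.eq_zero_of_ker h1 (h.pow_ker hg0 n)
  have h3 : g = 0 := hred.eq_zero _ ⟨n, h2⟩
  rw [← hgy, h3, map_zero]

end IsEulerType

end red

end Pool.Agent.Helper1.DubProd
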