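import Pool.Agent.Helper1.DubProd.Der
import Pool.Agent.Helper1.DubProd.Red
import Pool.Agent.Helper18.Dub.Small

/-!
# Generic semisimplicity is detected on a generating subspace
-/

open scoped BigOperators
open Finset MvPowerSeries

namespace Pool.Agent.Helper1.DubProd

open Pool.Agent.Helper18.Dub

section nak

variable {ι κ : Type} [Fintype ι] [DecidableEq ι] (X : FanoGW ι) (e : κ ↪ ι)

/-- the variables outside the range of `e` -/
abbrev Out (e : κ ↪ ι) : Type := {j : ι // j ∉ Set.range e}

noncomputable instance : Fintype (Out e) := Fintype.ofFinite _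

/-- reduction to small quantum cohomology -/
noncomputable def red : X.QH.Carrier →+* X.smallQH.Carrier :=
  X.QH.mapHom (constantCoeff (σ := ι) (R := ℂ))

theorem red_apply (x : X.QH.Carrier) (k : ι) : red X x k = constantCoeff (x k) := rfl

/-- the coordinate function `t_j` as an element of the algebra -/
noncomputable def tj (j : ι) : X.QH.Carrier := (MvPowerSeries.X j : MvPowerSeries ι ℂ) • 1

/-- values of derivations on the coordinates outside the range of `e`, modulo `t` -/
def InP (w : Out e → X.QH.Carrier) : Prop :=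
  ∃ Θ, IsDer X Θ ∧ ∀ j : Out e, red X (w j) = red X (Θ (tj X j.1))

variable {X e}

theorem InP.add {w w' : Out e → X.QH.Carrier} (h : InP X e w) (h' : InP X e w') :
    InP X e (w + w') := by
  obtain ⟨Θ, h1, h2⟩ := h
  obtain ⟨Θ', h1', h2'⟩ := h'
  refine ⟨_, h1.plus h1', fun j => ?_⟩
  rw [Pi.add_apply, map_add, map_add, h2, h2']

theorem InP.mul {w : Out e → X.QH.Carrier} (h : InP X e w) (f : X.QH.Carrier) :
    InP X e (fun j => f * w j) := by
  obtain ⟨Θ, h1, h2⟩ := h
  refine ⟨_, h1.mul_left f, fun j => ?_⟩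
  rw [map_mul, map_mul, h2]

theorem InP.congr {w w' : Out e → X.QH.Carrier} (h : InP X e w)
    (hw : ∀ j, red X (w' j) = red X (w j)) : InP X e w' := by
  obtain ⟨Θ, h1, h2⟩ := h
  exact ⟨Θ, h1, fun j => by rw [hw, h2]⟩

theorem InP.of_der {Θ : X.QH.Carrier → X.QH.Carrier} (h : IsDer X Θ) :
    InP X e (fun j => Θ (tj X j.1)) := ⟨Θ, h, fun _ => rfl⟩

theorem InP.zero : InP X e 0 := ⟨_, IsDer.zero, fun j => by rw [Pi.zero_apply]⟩

theorem InP.neg {w : Out e → X.QH.Carrier} (h : InP X e w) : InP X e (-w) := by
  refine (h.mul (-1)).congr fun j => ?_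
  rw [Pi.neg_apply, neg_one_mul]

theorem InP.sum {β : Type*} (s : Finset β) (f : β → Out e → X.QH.Carrier)
    (h : ∀ b ∈ s, InP X e (f b)) : InP X e (∑ b ∈ s, f b) := by
  classical
  induction s using Finset.induction_on with
  | empty => exact InP.zero
  | insert b s hb ih =>
    rw [Finset.sum_insert hb]
    exact (h b (Finset.mem_insert_self _ _)).add (ih fun c hc => h c (Finset.mem_insert_of_mem hc))

variable (X e)

/-- the vector of coordinates outside the range of `e` -/
noncomputable def ee (x : X.QH.Carrier) : Out e → X.QH.Carrier := fun j => x j.1 • 1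

theorem ee_apply (x : X.QH.Carrier) (j : Out e) : ee X e x j = x j.1 • (1 : X.QH.Carrier) := rfl

theorem red_ee (x : X.QH.Carrier) (j : Out e) :
    red X (ee X e x j) = (red X x j.1) • (1 : X.smallQH.Carrier) := by
  funext k
  rw [red_apply, ee_apply, AlgStr.smul_apply, AlgStr.smul_apply, AlgStr.one_apply,
    AlgStr.one_apply, red_apply, map_mul]
  congr 1
  have : X.QH.one = X.smallQH.one := rfl
  rw [this]
  split_ifs <;> simp

theorem ee_add (x y : X.QH.Carrier) : ee X e (x + y) = ee X e x + ee X e y := by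
  funext j
  rw [Pi.add_apply, ee_apply, ee_apply, ee_apply, AlgStr.add_apply, add_smul]

theorem ee_mul (x y : X.QH.Carrier) (j : Out e) :
    ee X e (x * y) j = x * ee X e y j + y * ee X e x j -
      ∑ a, ∑ b, ((x a * y b) • (1 : X.QH.Carrier)) * th X a b (tj X j.1) := by
  have h1 : ∀ a b, ((x a * y b) • (1 : X.QH.Carrier)) * th X a b (tj X j.1) =
      (if b = j.1 then (x a * y b) • X.QH.basis a else 0) +
        (if a = j.1 then (x a * y b) • X.QH.basis b else 0) -
        (x a * y b * X.sc a b j.1) • (1 : X.QH.Carrier) := by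
    intro a b
    rw [tj, th_coord, smul_mul_assoc, one_mul, smul_sub, smul_add, smul_smul]
    congr 1
    congr 1
    · split_ifs
      · rfl
      · rw [smul_zero]
    · split_ifs
      · rfl
      · rw [smul_zero]
  simp only [h1, Finset.sum_sub_distrib, Finset.sum_add_distrib, Finset.sum_ite_eq',
    Finset.mem_univ, if_true]
  have h2 : ∑ a, (x a * y j.1) • X.QH.basis a = x * ee X e y j := by
    rw [ee_apply, mul_smul_comm, mul_one]
    conv_rhs => rw [eq_sum_basis X x]
    rw [Finset.smul_sum]
    refine Finset.sum_congr rfl fun a _ => ?_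
    rw [smul_smul, mul_comm]
  have h3 : ∑ a, ∑ b, (if a = j.1 then (x a * y b) • X.QH.basis b else 0) =
      y * ee X e x j := by
    rw [Finset.sum_comm]
    simp only [Finset.sum_ite_eq', Finset.mem_univ, if_true]
    rw [ee_apply, mul_smul_comm, mul_one]
    conv_rhs => rw [eq_sum_basis X y]
    rw [Finset.smul_sum]
    refine Finset.sum_congr rfl fun a _ => ?_
    rw [smul_smul]
  have h4 : ∑ a, ∑ b, (x a * y b * X.sc a b j.1) • (1 : X.QH.Carrier) = ee X e (x * y) j := by
    rw [ee_apply, AlgStr.mul_apply, Finset.sum_smul]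
    refine Finset.sum_congr rfl fun a _ => ?_
    rw [Finset.sum_smul]
    rfl
  rw [h2, h3, h4]
  abel

variable {X e}

theorem InP.ee_mul {x y : X.QH.Carrier} (hx : InP X e (ee X e x)) (hy : InP X e (ee X e y)) :
    InP X e (ee X e (x * y)) := by
  have h1 : InP X e (∑ a, ∑ b, fun j : Out e => ((x a * y b) • (1 : X.QH.Carrier)) *
      th X a b (tj X j.1)) := by
    refine InP.sum _ _ fun a _ => InP.sum _ _ fun b _ => ?_
    exact (InP.of_der (isDer_th X a b)).mul _
  refine (((hy.mul x).add (hx.mul y)).add h1.neg).congr fun j => ?_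
  congr 1
  rw [DubProd.ee_mul, Pi.add_apply, Pi.add_apply, Pi.neg_apply, Finset.sum_apply,
    sub_eq_add_neg]
  congr 2
  refine Finset.sum_congr rfl fun a _ => ?_
  rw [Finset.sum_apply]

theorem InP.ee_one : InP X e (ee X e 1) := by
  refine (InP.of_der (isDer_th X X.one X.one)).congr fun j => ?_
  congr 1
  rw [tj, th_coord, ee_apply, AlgStr.one_apply]
  have h1 : X.sc X.one X.one j.1 = if X.one = j.1 then 1 else 0 := X.QH.one_mul X.one j.1
  have h2 : X.QH.basis X.one = 1 := X.QH.basis_one
  have h3 : X.QH.one = X.one := rfl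
  rw [h1, h2, h3]
  split_ifs
  · rw [one_smul]; abel
  · rw [zero_smul]; abel

/-- if `H'` and `c_1` generate small quantum cohomology, all coordinate vectors are values of
derivations modulo `t` -/
theorem InP.ee_all (hgen : Algebra.adjoin ℂ ((Set.range fun a => X.smallQH.basis (e a)) ∪
    {X.c1class}) = ⊤) (x : X.QH.Carrier) : InP X e (ee X e x) := by
  have hlift : ∀ b : X.smallQH.Carrier, ∃ y : X.QH.Carrier, red X y = b := by
    intro b
    refine ⟨fun k => C (b k), ?_⟩
    funext k
    rw [red_apply]
    simp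
  have hcongr : ∀ x y : X.QH.Carrier, red X x = red X y → InP X e (ee X e y) →
      InP X e (ee X e x) := by
    intro x y hxy h
    refine h.congr fun j => ?_
    rw [red_ee, red_ee, hxy]
  have key : ∀ b ∈ Algebra.adjoin ℂ ((Set.range fun a => X.smallQH.basis (e a)) ∪
      {X.c1class}), ∀ x : X.QH.Carrier, red X x = b → InP X e (ee X e x) := by
    intro b hb
    induction hb using Algebra.adjoin_induction with
    | mem b hb =>
      rcases hb with ⟨a, rfl⟩ | hb
      · intro x hx
        refine hcongr x (X.QH.basis (e a)) ?_ ?_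
        · rw [hx]
          funext k
          show X.smallQH.basis (e a) k = _
          rw [red_apply, AlgStr.basis_apply, AlgStr.basis_apply]
          split_ifs <;> simp
        · refine InP.zero.congr fun j => ?_
          rw [ee_apply, AlgStr.basis_apply, if_neg, zero_smul, Pi.zero_apply]
          intro h
          exact j.2 ⟨a, h⟩
      · intro x hx
        rw [Set.mem_singleton_iff] at hb
        refine hcongr x X.eulerElt ?_ ?_
        · rw [hx, hb, ← X.flatAlg_c0]
          rfl
        · refine (InP.of_der (isDer_xi X)).congr fun j => ?_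
          congr 1
          funext k
          rw [tj, xi_coord, ee_apply, AlgStr.smul_apply, AlgStr.one_apply]
          have h3 : X.QH.one = X.one := rfl
          rw [h3]
          split_ifs
          · rw [mul_one]; rfl
          · rw [mul_zero]
    | algebraMap c =>
      intro x hx
      refine hcongr x ((C c : MvPowerSeries ι ℂ) • (1 : X.QH.Carrier)) ?_ ?_
      · rw [hx, Algebra.algebraMap_eq_smul_one]
        funext k
        rw [red_apply, AlgStr.smul_apply, AlgStr.smul_apply, AlgStr.one_apply, AlgStr.one_apply]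
        have : X.QH.one = X.smallQH.one := rfl
        rw [this]
        split_ifs <;> simp
      · refine (InP.ee_one.mul ((C c : MvPowerSeries ι ℂ) • (1 : X.QH.Carrier))).congr
          fun j => ?_
        congr 1
        rw [ee_apply, ee_apply, AlgStr.smul_apply, smul_mul_assoc, one_mul, smul_smul]
    | add b b' _ _ ih ih' =>
      intro x hx
      obtain ⟨y, hy⟩ := hlift b
      obtain ⟨y', hy'⟩ := hlift b'
      refine hcongr x (y + y') ?_ ?_
      · rw [hx, map_add, hy, hy']
      · rw [ee_add]
        exact (ih y hy).add (ih' y' hy')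
    | mul b b' _ _ ih ih' =>
      intro x hx
      obtain ⟨y, hy⟩ := hlift b
      obtain ⟨y', hy'⟩ := hlift b'
      refine hcongr x (y * y') ?_ ?_
      · rw [hx, map_mul, hy, hy']
      · exact InP.ee_mul (ih y hy) (ih' y' hy')
  exact key (red X x) (by rw [hgen]; trivial) x rfl

variable (X e)

/-- the module of values of derivations on the coordinates -/
noncomputable def vals : Submodule (MvPowerSeries ι ℂ) (Out e → X.QH.Carrier) where
  carrier := {w | ∃ Θ, IsDer X Θ ∧ ∀ j : Out e, w j = Θ (tj X j.1)}
  zero_mem' := ⟨_, IsDer.zero, fun _ => rfl⟩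
  add_mem' := by
    rintro w w' ⟨Θ, h1, h2⟩ ⟨Θ', h1', h2'⟩
    refine ⟨_, h1.plus h1', fun j => ?_⟩
    rw [Pi.add_apply, h2, h2']
  smul_mem' := by
    rintro r w ⟨Θ, h1, h2⟩
    refine ⟨_, h1.mul_left (r • 1), fun j => ?_⟩
    rw [Pi.smul_apply, h2, smul_mul_assoc, one_mul]

variable {X e}

theorem vals_eq_top (hgen : Algebra.adjoin ℂ ((Set.range fun a => X.smallQH.basis (e a)) ∪
    {X.c1class}) = ⊤) : vals X e = ⊤ := by
  classical
  have hall : ∀ w : Out e → X.QH.Carrier, InP X e w := by
    intro w
    have h1 : w = ∑ j : Out e, fun j' => w j * ee X e (X.QH.basis j.1) j' := by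
      funext j'
      rw [Finset.sum_apply, Finset.sum_eq_single j']
      · rw [ee_apply, AlgStr.basis_apply, if_pos rfl, one_smul, mul_one]
      · intro j _ hj
        rw [ee_apply, AlgStr.basis_apply, if_neg, zero_smul, mul_zero]
        intro h
        exact hj (Subtype.ext h)
      · intro h
        exact absurd (Finset.mem_univ _) h
    rw [h1]
    exact InP.sum _ _ fun j _ => (InP.ee_all hgen _).mul _
  rw [eq_top_iff]
  refine Submodule.le_of_le_smul_of_le_jacobson_bot
    (I := IsLocalRing.maximalIdeal (MvPowerSeries ι ℂ)) Module.Finite.fg_top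
    (IsLocalRing.maximalIdeal_le_jacobson _) ?_
  intro w _
  obtain ⟨Θ, h1, h2⟩ := hall w
  have h3 : w = (fun j : Out e => Θ (tj X j.1)) + (w - fun j : Out e => Θ (tj X j.1)) := by abel
  rw [h3]
  refine Submodule.add_mem_sup ⟨Θ, h1, fun _ => rfl⟩ ?_
  set u := w - fun j : Out e => Θ (tj X j.1) with hu
  have hu0 : ∀ j k, constantCoeff (u j k) = 0 := by
    intro j k
    have h4 := congrFun (h2 j) k
    rw [red_apply, red_apply] at h4
    have h5 : u j k = w j k - Θ (tj X j.1) k := rfl
    rw [h5, map_sub, h4, sub_self]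
  have h6 : u = ∑ j : Out e, ∑ k : ι, (u j k) • (Pi.single j (X.QH.basis k) :
      Out e → X.QH.Carrier) := by
    funext j'
    rw [Finset.sum_apply, Finset.sum_eq_single j']
    · rw [Finset.sum_apply]
      conv_lhs => rw [eq_sum_basis X (u j')]
      refine Finset.sum_congr rfl fun k _ => ?_
      rw [Pi.smul_apply, Pi.single_eq_same]
    · intro j _ hj
      rw [Finset.sum_apply]
      refine Finset.sum_eq_zero fun k _ => ?_
      rw [Pi.smul_apply, Pi.single_eq_of_ne (Ne.symm hj), smul_zero]
    · intro h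
      exact absurd (Finset.mem_univ _) h
  rw [h6]
  refine Submodule.sum_mem _ fun j _ => Submodule.sum_mem _ fun k _ => ?_
  refine Submodule.smul_mem_smul ?_ trivial
  rw [IsLocalRing.mem_maximalIdeal, mem_nonunits_iff, MvPowerSeries.isUnit_iff_constantCoeff,
    hu0, isUnit_iff_ne_zero, not_not]

theorem exists_der (hgen : Algebra.adjoin ℂ ((Set.range fun a => X.smallQH.basis (e a)) ∪
    {X.c1class}) = ⊤) (j₀ : Out e) :
    ∃ Θ, IsDer X Θ ∧ ∀ j : Out e, Θ (tj X j.1) = if j = j₀ then 1 else 0 := by
  classical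
  have h1 : (fun j : Out e => if j = j₀ then (1 : X.QH.Carrier) else 0) ∈ vals X e := by
    rw [vals_eq_top hgen]; trivial
  obtain ⟨Θ, h2, h3⟩ := h1
  exact ⟨Θ, h2, fun j => (h3 j).symm⟩

/-- There is a derivation of Euler type along the directions outside a generating subspace. -/
theorem exists_eulerType (hgen : Algebra.adjoin ℂ ((Set.range fun a => X.smallQH.basis (e a)) ∪
    {X.c1class}) = ⊤) : ∃ Θ : X.QH.Carrier → X.QH.Carrier, IsEulerType e Θ := by
  classical
  choose D hD1 hD2 using fun j => exists_der (e := e) hgen j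
  refine ⟨fun x => ∑ j : Out e, (MvPowerSeries.X j.1 : MvPowerSeries ι ℂ) • D j x, ?_⟩
  constructor
  · intro x y
    rw [← Finset.sum_add_distrib]
    refine Finset.sum_congr rfl fun j _ => ?_
    rw [(hD1 j).add, smul_add]
  · intro x y
    rw [Finset.sum_mul, Finset.mul_sum, ← Finset.sum_add_distrib]
    refine Finset.sum_congr rfl fun j _ => ?_
    rw [(hD1 j).mul, smul_add, smul_mul_assoc, mul_smul_comm]
  · intro c x
    rw [Finset.smul_sum]
    refine Finset.sum_congr rfl fun j _ => ?_
    rw [(hD1 j).const, smul_comm]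
  · intro j hj
    rw [Finset.sum_eq_single ⟨j, hj⟩]
    · have := hD2 ⟨j, hj⟩ ⟨j, hj⟩
      rw [if_pos rfl] at this
      show (MvPowerSeries.X j : MvPowerSeries ι ℂ) • D ⟨j, hj⟩ (tj X j) = _
      rw [this]
    · intro j' _ hj'
      have := hD2 j' ⟨j, hj⟩
      rw [if_neg (Ne.symm hj')] at this
      show (MvPowerSeries.X j'.1 : MvPowerSeries ι ℂ) • D j' (tj X j) = 0
      rw [this, smul_zero]
    · intro h
      exact absurd (Finset.mem_univ _) h
  · intro x i
    rw [carrier_sum_apply]
    refine Fil.sum _ _ fun j _ => ?_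
    rw [AlgStr.smul_apply]
    exact (fil_X j.2).mul_right _

/-- If the classes `φ_{e a}` and `c_1` generate small quantum cohomology, then semisimplicity of
big quantum cohomology implies semisimplicity at the generic point of the span of the `φ_{e a}`. -/
theorem disc_res_ne_zero (hgen : Algebra.adjoin ℂ ((Set.range fun a => X.smallQH.basis (e a)) ∪
    {X.c1class}) = ⊤) (h : X.QH.disc ≠ 0) :
    (X.QH.map (killCompl (R := ℂ) e).toRingHom).disc ≠ 0 := by
  obtain ⟨Θ, hΘ⟩ := exists_eulerType (e := e) hgen
  rw [← AlgStr.isReduced_iff_disc] at h ⊢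
  exact hΘ.isReduced_res h

end nak

end Pool.Agent.Helper1.DubProd
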