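import Mathlib

/-!
# Generic rank of matrices over a domain: minors, specialisation, Kronecker products
-/

open scoped BigOperators Kronecker
open Finset

namespace Pool.Agent.Helper1.DubProd

section field

variable {K : Type*} [Field K] {m n : Type*} [Fintype m] [DecidableEq m] [Fintype n]
  [DecidableEq n]

theorem exists_diag (A : Matrix m m K) : ∃ (P Q : Matrix m m K) (D : m → K),
    IsUnit P.det ∧ IsUnit Q.det ∧ A = P * Matrix.diagonal D * Q := by
  obtain ⟨L, L', D, h⟩ := Matrix.Pivot.exists_list_transvec_mul_diagonal_mul_list_transvec A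
  have hL : ∀ L : List (Matrix.TransvectionStruct m K),
      IsUnit ((L.map Matrix.TransvectionStruct.toMatrix).prod).det := by
    intro L
    rw [Matrix.TransvectionStruct.det_toMatrix_prod]
    exact isUnit_one
  exact ⟨_, _, D, hL L, hL L', h⟩

theorem rank_of_diag {A P Q : Matrix m m K} {D : m → K} (hP : IsUnit P.det) (hQ : IsUnit Q.det)
    (h : A = P * Matrix.diagonal D * Q) : A.rank = (Matrix.diagonal D).rank := by
  rw [h, Matrix.rank_mul_eq_left_of_isUnit_det _ _ hQ,
    Matrix.rank_mul_eq_right_of_isUnit_det _ _ hP]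

theorem rank_kronecker (A : Matrix m m K) (B : Matrix n n K) :
    (A ⊗ₖ B).rank = A.rank * B.rank := by
  classical
  obtain ⟨P, Q, D, hP, hQ, hA⟩ := exists_diag A
  obtain ⟨P', Q', D', hP', hQ', hB⟩ := exists_diag B
  have h1 : A ⊗ₖ B = (P ⊗ₖ P') * Matrix.diagonal (fun p : m × n => D p.1 * D' p.2) *
      (Q ⊗ₖ Q') := by
    rw [hA, hB, Matrix.mul_kronecker_mul, Matrix.mul_kronecker_mul,
      Matrix.diagonal_kronecker_diagonal]
  have hPP : IsUnit (P ⊗ₖ P').det := by
    rw [Matrix.det_kronecker]
    exact (hP.pow _).mul (hP'.pow _)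
  have hQQ : IsUnit (Q ⊗ₖ Q').det := by
    rw [Matrix.det_kronecker]
    exact (hQ.pow _).mul (hQ'.pow _)
  rw [rank_of_diag hPP hQQ h1, rank_of_diag hP hQ hA, rank_of_diag hP' hQ' hB,
    Matrix.rank_diagonal, Matrix.rank_diagonal, Matrix.rank_diagonal, ← Fintype.card_prod]
  refine Fintype.card_congr
    { toFun := fun p => (⟨p.1.1, left_ne_zero_of_mul p.2⟩, ⟨p.1.2, right_ne_zero_of_mul p.2⟩)
      invFun := fun q => ⟨(q.1.1, q.2.1), mul_ne_zero q.1.2 q.2.2⟩
      left_inv := fun p => rfl
      right_inv := fun q => rfl }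

theorem exists_cols {m n : Type*} [Finite m] [Fintype n] (A : Matrix m n K) (r : ℕ)
    (hr : A.rank = r) : ∃ w : Fin r → n, LinearIndependent K (fun i => A.col (w i)) := by
  rw [Matrix.rank_eq_finrank_span_cols] at hr
  subst hr
  obtain ⟨f, hf1, _, hf3⟩ := Submodule.exists_fun_fin_finrank_span_eq K (Set.range A.col)
  choose w hw using hf1
  refine ⟨w, ?_⟩
  have : (fun i => A.col (w i)) = f := funext hw
  rw [this]
  exact hf3

theorem exists_minor {m n : Type*} [Fintype m] [Fintype n] (A : Matrix m n K) (r : ℕ)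
    (hr : A.rank = r) : ∃ (u : Fin r → m) (w : Fin r → n), (A.submatrix u w).det ≠ 0 := by
  classical
  obtain ⟨w, hw⟩ := exists_cols A r hr
  set N : Matrix m (Fin r) K := A.submatrix id w with hN
  have h1 : N.rank = r := by
    rw [Matrix.rank_eq_finrank_span_cols, finrank_span_eq_card (b := N.col) hw, Fintype.card_fin]
  have h2 : N.transpose.rank = r := by rw [Matrix.rank_transpose, h1]
  obtain ⟨u, hu⟩ := exists_cols N.transpose r h2
  refine ⟨u, w, ?_⟩
  have h3 : LinearIndependent K (A.submatrix u w).row := hu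
  rw [Matrix.linearIndependent_rows_iff_isUnit, Matrix.isUnit_iff_isUnit_det] at h3
  exact h3.ne_zero

end field

section domain

variable {R S : Type*} [CommRing R] [IsDomain R] [CommRing S] [IsDomain S] {m n : Type*}
  [Fintype m] [Fintype n]

/-- the rank over the field of fractions -/
noncomputable def grk (A : Matrix m n R) : ℕ := (A.map (algebraMap R (FractionRing R))).rank

theorem le_grk {A : Matrix m n R} {r : ℕ} {u : Fin r → m} {w : Fin r → n}
    (h : (A.submatrix u w).det ≠ 0) : r ≤ grk A := by
  have h1 : ((A.map (algebraMap R (FractionRing R))).submatrix u w).det ≠ 0 := by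
    have h2 : (A.map (algebraMap R (FractionRing R))).submatrix u w =
        (algebraMap R (FractionRing R)).mapMatrix (A.submatrix u w) := rfl
    rw [h2, ← RingHom.map_det]
    exact fun h0 => h ((map_eq_zero_iff _ (IsFractionRing.injective R (FractionRing R))).1 h0)
  have h3 := Matrix.rank_of_det_ne_zero h1
  have h4 := Matrix.rank_submatrix_le (A.map (algebraMap R (FractionRing R))) u w
  rw [h3, Fintype.card_fin] at h4
  exact h4

theorem exists_minor_grk (A : Matrix m n R) :
    ∃ (u : Fin (grk A) → m) (w : Fin (grk A) → n), (A.submatrix u w).det ≠ 0 := by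
  obtain ⟨u, w, h⟩ := exists_minor (A.map (algebraMap R (FractionRing R))) (grk A) rfl
  refine ⟨u, w, fun h0 => h ?_⟩
  have h2 : (A.map (algebraMap R (FractionRing R))).submatrix u w =
      (algebraMap R (FractionRing R)).mapMatrix (A.submatrix u w) := rfl
  rw [h2, ← RingHom.map_det, h0, map_zero]

/-- Specialisation does not increase the rank. -/
theorem grk_map_le (A : Matrix m n R) (f : R →+* S) : grk (A.map f) ≤ grk A := by
  obtain ⟨u, w, h⟩ := exists_minor_grk (A.map f)
  refine le_grk (u := u) (w := w) fun h0 => h ?_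
  have h2 : (A.map f).submatrix u w = f.mapMatrix (A.submatrix u w) := rfl
  rw [h2, ← RingHom.map_det, h0, map_zero]

theorem grk_map_of_injective (A : Matrix m n R) (f : R →+* S) (hf : Function.Injective f) :
    grk (A.map f) = grk A := by
  refine le_antisymm (grk_map_le A f) ?_
  obtain ⟨u, w, h⟩ := exists_minor_grk A
  refine le_grk (u := u) (w := w) fun h0 => h ?_
  have h2 : (A.map f).submatrix u w = f.mapMatrix (A.submatrix u w) := rfl
  rw [h2, ← RingHom.map_det] at h0
  exact (map_eq_zero_iff f hf).1 h0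

/-- Over a field the generic rank is the rank. -/
theorem grk_field {K : Type*} [Field K] (A : Matrix m n K) : grk A = A.rank := by
  refine le_antisymm ?_ ?_
  · obtain ⟨u, w, h⟩ := exists_minor_grk A
    have h3 := Matrix.rank_of_det_ne_zero h
    have h4 := Matrix.rank_submatrix_le A u w
    rw [h3, Fintype.card_fin] at h4
    exact h4
  · obtain ⟨u, w, h⟩ := exists_minor A A.rank rfl
    exact le_grk h

theorem grk_kronecker [DecidableEq m] [DecidableEq n] (A : Matrix m m R) (B : Matrix n n R) :
    grk (A ⊗ₖ B) = grk A * grk B := by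
  rw [grk, grk, grk, ← rank_kronecker]
  congr 1
  ext i j
  simp [Matrix.kroneckerMap_apply]

end domain

end Pool.Agent.Helper1.DubProd
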