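import Pool.Agent.Helper1.DubProd.Red
import Pool.Agent.Helper1.DubProd.Rank

/-!
# The number of characters of a generic algebra
-/

open scoped BigOperators Kronecker
open Finset MvPowerSeries

namespace Pool.Agent.Helper1.DubProd

open Pool.Agent.Helper18.Dub

section srk

variable {R : Type*} [CommRing R] [IsDomain R] [CharZero R] {α : Type*} [Fintype α]
  [DecidableEq α]

/-- matrix of the trace form -/
noncomputable def trm {R : Type*} [CommRing R] {α : Type*} [Fintype α] [DecidableEq α]
    (A : AlgStr R α) : Matrix α α R := Algebra.traceMatrix R A.basis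

theorem trm_map {R : Type*} [CommRing R] {α : Type*} [Fintype α] [DecidableEq α]
    (A : AlgStr R α) {S : Type*} [CommRing S] (f : R →+* S) : trm (A.map f) = (trm A).map f := by
  ext a b
  rw [Matrix.map_apply, trm, trm, Algebra.traceMatrix_apply,
    Algebra.traceMatrix_apply, AlgStr.traceForm_basis, AlgStr.traceForm_basis]
  simp only [map_sum, map_mul, AlgStr.map_m]

theorem trm_mulVec {R : Type*} [CommRing R] {α : Type*} [Fintype α] [DecidableEq α]
    (A : AlgStr R α) (x : A.Carrier) (a : α) :
    (trm A).mulVec x a = Algebra.trace R A.Carrier (x * A.basis a) := by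
  have h1 : x = ∑ c, x c • A.basis c := by
    conv_lhs => rw [← A.basis.sum_repr x]
    rfl
  have h2 : Algebra.trace R A.Carrier (x * A.basis a) =
      ∑ c, x c * Algebra.trace R A.Carrier (A.basis a * A.basis c) := by
    conv_lhs => rw [h1]
    rw [Finset.sum_mul, map_sum]
    refine Finset.sum_congr rfl fun c _ => ?_
    rw [smul_mul_assoc, map_smul, smul_eq_mul, mul_comm (A.basis c)]
  rw [h2, Matrix.mulVec, dotProduct]
  refine Finset.sum_congr rfl fun c _ => ?_
  rw [trm, Algebra.traceMatrix_apply, Algebra.traceForm_apply, mul_comm]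

theorem trace_nil (A : AlgStr R α) {x : A.Carrier} (hx : IsNilpotent x) :
    Algebra.trace R A.Carrier x = 0 :=
  (Algebra.isNilpotent_trace_of_isNilpotent hx).eq_zero

theorem trm_mulVec_of_nilpotent (A : AlgStr R α) {x : A.Carrier} (hx : IsNilpotent x) :
    (trm A).mulVec x = 0 := by
  funext a
  rw [trm_mulVec, trace_nil A ((Commute.all _ _).isNilpotent_mul_right hx)]
  rfl

theorem nilpotent_of_trm_mulVec (A : AlgStr R α) {x : A.Carrier}
    (h : (trm A).mulVec x = 0) : IsNilpotent x := by
  have := AlgStr.charZero_fractionRing (R := R)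
  set f := algebraMap R (FractionRing R) with hf
  have hinj : Function.Injective f := IsFractionRing.injective R (FractionRing R)
  set A' := A.map f with hA'
  set x' : A'.Carrier := A.mapHom f x with hx'
  have h1 : (trm A').mulVec x' = 0 := by
    funext a
    rw [trm_map]
    have h2 := congrArg f (congrFun h a)
    rw [Matrix.mulVec, dotProduct, map_sum] at h2
    rw [Matrix.mulVec, dotProduct]
    have h3 : f ((0 : α → R) a) = 0 := map_zero f
    rw [h3] at h2
    show _ = (0 : FractionRing R)
    rw [← h2]
    refine Finset.sum_congr rfl fun c _ => ?_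
    rw [map_mul]
    rfl
  have h2 : ∀ y : A'.Carrier, Algebra.trace (FractionRing R) A'.Carrier (x' * y) = 0 := by
    intro y
    rw [← A'.basis.sum_repr y, Finset.mul_sum, map_sum]
    refine Finset.sum_eq_zero fun a _ => ?_
    rw [mul_smul_comm, map_smul, ← trm_mulVec, h1]
    exact smul_zero _
  have h3 := isNilpotent_of_trace_mul_eq_zero x' h2
  exact (IsNilpotent.map_iff (A.mapHom_injective f hinj)).1 h3

/-- rank of the trace form at the generic point -/
noncomputable def srk (A : AlgStr R α) : ℕ := grk (trm A)

omit [CharZero R] in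
theorem srk_map_le (A : AlgStr R α) {S : Type*} [CommRing S] [IsDomain S] (f : R →+* S) :
    srk (A.map f) ≤ srk A := by
  rw [srk, srk, trm_map]
  exact grk_map_le _ _

omit [CharZero R] in
theorem srk_map_of_injective (A : AlgStr R α) {S : Type*} [CommRing S] [IsDomain S]
    (f : R →+* S) (hf : Function.Injective f) : srk (A.map f) = srk A := by
  rw [srk, srk, trm_map]
  exact grk_map_of_injective _ _ hf

/-- Independent vectors in the kernel of the trace form. -/
theorem exists_kernel {S : Type*} [CommRing S] [IsDomain S] (T : Matrix α α S) :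
    ∃ Y : Matrix (Fin (Fintype.card α - grk T)) α S, grk Y = Fintype.card α - grk T ∧
      ∀ i, T.mulVec (Y i) = 0 := by
  classical
  set f := algebraMap S (FractionRing S) with hf
  have hinj : Function.Injective f := IsFractionRing.injective S (FractionRing S)
  set T' := T.map f with hT'
  have hker : Module.finrank (FractionRing S) (LinearMap.ker T'.mulVecLin) =
      Fintype.card α - grk T := by
    have h1 := LinearMap.finrank_range_add_finrank_ker T'.mulVecLin
    rw [Module.finrank_fintype_fun_eq_card] at h1
    have h2 : grk T = Module.finrank (FractionRing S) (LinearMap.range T'.mulVecLin) := rfl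
    omega
  let b := Module.finBasisOfFinrankEq (FractionRing S) (LinearMap.ker T'.mulVecLin) hker
  -- clear denominators
  obtain ⟨s, hs⟩ := IsLocalization.exist_integer_multiples_of_finset (nonZeroDivisors S)
    (Finset.univ.image fun p : Fin (Fintype.card α - grk T) × α =>
      ((b p.1 : LinearMap.ker T'.mulVecLin) : α → FractionRing S) p.2)
  have hs' : ∀ i a, ∃ y : S, f y = (s : S) • ((b i : α → FractionRing S) a) := by
    intro i a
    exact hs _ (Finset.mem_image_of_mem _ (Finset.mem_univ (i, a)))
  choose y hy using hs'
  have hs0 : f (s : S) ≠ 0 := by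
    intro h0
    exact nonZeroDivisors.ne_zero s.2 ((map_eq_zero_iff _ hinj).1 h0)
  refine ⟨Matrix.of y, ?_, ?_⟩
  · have h1 : LinearIndependent (FractionRing S) ((Matrix.of y).map f).row := by
      have h2 : LinearIndependent (FractionRing S) (fun i => (b i : α → FractionRing S)) :=
        b.linearIndependent.map' (LinearMap.ker T'.mulVecLin).subtype
          (Submodule.ker_subtype _)
      have h3 := h2.units_smul
        (fun _ : Fin (Fintype.card α - grk T) => (Units.mk0 (f s) hs0 : (FractionRing S)ˣ))
      have h4 : ((Matrix.of y).map f).row =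
          (fun _ : Fin (Fintype.card α - grk T) => (Units.mk0 (f s) hs0 : (FractionRing S)ˣ)) •
            (fun i => (b i : α → FractionRing S)) := by
        funext i a
        show f (y i a) = _
        rw [hy, Algebra.smul_def]
        rfl
      rw [h4]
      exact h3
    show (((Matrix.of y).map f)).rank = _
    rw [Matrix.rank_eq_finrank_span_row, finrank_span_eq_card h1, Fintype.card_fin]
  · intro i
    have h1 : T'.mulVec (b i : α → FractionRing S) = 0 := (b i).2
    funext a
    apply hinj
    have h2 : f ((0 : α → S) a) = 0 := map_zero f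
    rw [h2, Matrix.mulVec, dotProduct, map_sum]
    have h3 := congrFun h1 a
    rw [Matrix.mulVec, dotProduct] at h3
    have h4 : ∀ c, f (T a c * Matrix.of y i c) = f s * (T' a c * (b i : α → FractionRing S) c) := by
      intro c
      rw [map_mul]
      have h5 : f (Matrix.of y i c) = f s * (b i : α → FractionRing S) c := by
        show f (y i c) = _
        rw [hy, Algebra.smul_def]
      rw [h5]
      show f (T a c) * _ = f s * (f (T a c) * _)
      ring
    rw [Finset.sum_congr rfl fun c _ => h4 c, ← Finset.mul_sum, h3]
    exact mul_zero _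

theorem grk_add_le (T : Matrix α α R) {k : ℕ} (Y : Matrix (Fin k) α R)
    (h : ∀ i, T.mulVec (Y i) = 0) : grk T + grk Y ≤ Fintype.card α := by
  have h1 : (T.map (algebraMap R (FractionRing R))) *
      (Y.map (algebraMap R (FractionRing R))).transpose = 0 := by
    ext a i
    rw [Matrix.mul_apply]
    have h2 := congrArg (algebraMap R (FractionRing R)) (congrFun (h i) a)
    have h3 : algebraMap R (FractionRing R) ((0 : α → R) a) = 0 := map_zero _
    rw [h3, Matrix.mulVec, dotProduct, map_sum] at h2
    rw [Matrix.zero_apply, ← h2]
    refine Finset.sum_congr rfl fun c _ => ?_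
    rw [map_mul]
    rfl
  have h2 := Matrix.rank_add_rank_le_card_of_mul_eq_zero h1
  rw [Matrix.rank_transpose] at h2
  exact h2

theorem srk_eq_card_iff (A : AlgStr R α) : srk A = Fintype.card α ↔ A.disc ≠ 0 := by
  have hd : A.disc = (trm A).det := rfl
  rw [hd]
  constructor
  · intro h h0
    obtain ⟨u, w, hu⟩ := exists_minor_grk (trm A)
    have h1 : grk (trm A) = Fintype.card α := h
    -- full rank over the fraction field
    have h2 : IsUnit ((trm A).map (algebraMap R (FractionRing R))).det := by
      rw [← Matrix.isUnit_iff_isUnit_det, ← Matrix.linearIndependent_rows_iff_isUnit,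
        linearIndependent_iff_card_eq_finrank_span, Set.finrank,
        ← Matrix.rank_eq_finrank_span_row]
      exact h1.symm
    have h3 : ((trm A).map (algebraMap R (FractionRing R))).det =
        algebraMap R (FractionRing R) (trm A).det := by
      rw [RingHom.map_det]; rfl
    rw [h3, h0, map_zero] at h2
    exact not_isUnit_zero h2
  · intro h
    rw [srk, grk]
    have h3 : ((trm A).map (algebraMap R (FractionRing R))).det =
        algebraMap R (FractionRing R) (trm A).det := by
      rw [RingHom.map_det]; rfl
    have h4 : ((trm A).map (algebraMap R (FractionRing R))).det ≠ 0 := by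
      rw [h3]
      exact fun h0 => h ((map_eq_zero_iff _ (IsFractionRing.injective R (FractionRing R))).1 h0)
    rw [Matrix.rank_of_det_ne_zero h4]

/-- If all nilpotents of a specialisation lift to nilpotents, then the rank of the trace form does
not drop. -/
theorem srk_eq_of_lift {S : Type*} [CommRing S] [IsDomain S] [CharZero S] (A : AlgStr R α)
    (f : R →+* S) (h : ∀ y : (A.map f).Carrier, IsNilpotent y →
      ∃ g : A.Carrier, IsNilpotent g ∧ A.mapHom f g = y) : srk (A.map f) = srk A := by
  refine le_antisymm (srk_map_le _ _) ?_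
  set A' := A.map f with hA'
  obtain ⟨Y, hY1, hY2⟩ := exists_kernel (trm A')
  have hnil : ∀ i, IsNilpotent (show A'.Carrier from Y i) := fun i =>
    nilpotent_of_trm_mulVec A' (hY2 i)
  choose g hg1 hg2 using fun i => h (show A'.Carrier from Y i) (hnil i)
  let G : Matrix (Fin (Fintype.card α - grk (trm A'))) α R := fun i a => g i a
  have hG1 : G.map f = Y := by
    ext1 i a
    have := congrFun (hg2 i) a
    exact this
  have hG2 : ∀ i, (trm A).mulVec (G i) = 0 := fun i => trm_mulVec_of_nilpotent A (hg1 i)
  have h1 := grk_add_le (trm A) G hG2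
  have h2 := grk_map_le G f
  rw [hG1, hY1] at h2
  have h3 : grk (trm A') ≤ Fintype.card α :=
    Matrix.rank_le_card_width ((trm A').map (algebraMap S (FractionRing S)))
  rw [srk, srk]
  omega

/-- Over a field `srk` is the rank of the trace form. -/
theorem srk_field {K : Type*} [Field K] (A : AlgStr K α) : srk A = (trm A).rank := grk_field _

end srk

section euler

variable {ι κ : Type} [Fintype ι] {e : κ ↪ ι} {α : Type*} [Fintype α] [DecidableEq α]
  {A : AlgStr (MvPowerSeries ι ℂ) α}

theorem IsEulerType.exists_nilpotent_lift {Θ : A.Carrier → A.Carrier} (h : IsEulerType e Θ)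
    (y : (A.map (killCompl (R := ℂ) e).toRingHom).Carrier) (hy : IsNilpotent y) :
    ∃ g : A.Carrier, IsNilpotent g ∧ A.mapHom (killCompl (R := ℂ) e).toRingHom g = y := by
  let f : A.Carrier := fun i => rename e (y i)
  have hf : A.mapHom (killCompl (R := ℂ) e).toRingHom f = y := by
    funext i
    rw [AlgStr.mapHom_apply]
    exact killCompl_rename_app _
  obtain ⟨g, hg0, hgf⟩ := h.exists_ker f
  have hgy : A.mapHom (killCompl (R := ℂ) e).toRingHom g = y := by
    rw [filO_one_iff, map_sub, hf, sub_eq_zero] at hgf
    exact hgf
  obtain ⟨n, hn⟩ := hy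
  have h1 : FilO A e 1 (g ^ n) := by
    rw [filO_one_iff, map_pow, hgy, hn]
  exact ⟨g, ⟨n, h.eq_zero_of_ker h1 (h.pow_ker hg0 n)⟩, hgy⟩

/-- The generic number of characters does not change under restriction to the subspace. -/
theorem IsEulerType.srk_res {Θ : A.Carrier → A.Carrier} (h : IsEulerType e Θ) :
    srk (A.map (killCompl (R := ℂ) e).toRingHom) = srk A :=
  srk_eq_of_lift A _ h.exists_nilpotent_lift

end euler

end Pool.Agent.Helper1.DubProd
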