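import Pool.Agent.Helper1.DubProd.Prod
import Pool.Agent.Helper1.DubProd.Nak
import Pool.Agent.Helper1.DubProd.Srk
import Pool.Agent.Helper18.Dub.Bridge

/-!
# Quantum cohomology of a product is generically semisimple iff that of both factors is
-/

open scoped BigOperators Kronecker
open Finset MvPowerSeries

namespace Pool.Agent.Helper1.DubProd

open Pool.Agent.Helper18.Dub

variable {ι₁ ι₂ : Type} [Fintype ι₁] [DecidableEq ι₁] [Fintype ι₂] [DecidableEq ι₂]

theorem constantCoeff_killCompl {σ τ : Type*} {R : Type*} [CommRing R] (e : σ ↪ τ)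
    (F : MvPowerSeries τ R) : constantCoeff (killCompl e F) = constantCoeff F := by
  rw [← coeff_zero_eq_constantCoeff_apply, ← coeff_zero_eq_constantCoeff_apply, coeff_killCompl]
  congr 1

theorem trm_tensor {R : Type*} [CommRing R] {α β : Type*} [Fintype α] [DecidableEq α] [Fintype β]
    [DecidableEq β] (A : AlgStr R α) (B : AlgStr R β) (T : AlgStr R (α × β))
    (h : ∀ a b c i j k, T.m (a, i) (b, j) (c, k) = A.m a b c * B.m i j k) :
    trm T = trm A ⊗ₖ trm B := by
  ext ⟨a, i⟩ ⟨b, j⟩
  rw [Matrix.kroneckerMap_apply, trm, trm, trm, Algebra.traceMatrix_apply,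
    Algebra.traceMatrix_apply, Algebra.traceMatrix_apply, AlgStr.traceForm_basis,
    AlgStr.traceForm_basis, AlgStr.traceForm_basis]
  simp only [Fintype.sum_prod_type, h]
  rw [Finset.sum_mul_sum]
  refine Finset.sum_congr rfl fun c _ => Finset.sum_congr rfl fun k _ => ?_
  rw [Finset.sum_mul_sum]
  refine Finset.sum_congr rfl fun d _ => Finset.sum_congr rfl fun l _ => ?_
  ring

theorem trm_congr {R : Type*} [CommRing R] {ι : Type*} [Fintype ι] [DecidableEq ι]
    (T S : AlgStr R ι) (hTS : ∀ i j k, T.m i j k = S.m i j k) : trm T = trm S := by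
  ext1 i j
  rw [trm, trm, Algebra.traceMatrix_apply, Algebra.traceMatrix_apply, AlgStr.traceForm_basis,
    AlgStr.traceForm_basis]
  simp only [hTS]

theorem traceRank_eq_srk {ι : Type} [Fintype ι] [DecidableEq ι] (X : FanoGW ι) :
    traceRank X = srk X.QH := by
  rw [traceRank, srk, grk]
  congr 2
  ext1 a b
  rw [Matrix.of_apply, trm, Algebra.traceMatrix_apply, AlgStr.traceForm_basis, Matrix.trace]
  refine Finset.sum_congr rfl fun k _ => ?_
  rw [Matrix.diag_apply, Matrix.mul_apply]
  rfl

/-- The trace form has full rank iff big quantum cohomology is generically semisimple. -/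
theorem traceRank_eq_card_iff {ι : Type} [Fintype ι] [DecidableEq ι] (X : FanoGW ι) :
    traceRank X = Fintype.card ι ↔ X.IsGenericallySemisimple := by
  rw [X.isGenericallySemisimple_iff, AlgStr.genericallySemisimple_iff, traceRank_eq_srk,
    srk_eq_card_iff]

namespace IsProduct

variable {X : FanoGW ι₁} {Y : FanoGW ι₂} {Z : FanoGW (ι₁ × ι₂)} (h : IsProduct X Y Z)

include h

theorem small_m (a b c : ι₁) (i j k : ι₂) :
    Z.smallQH.m (a, i) (b, j) (c, k) = X.smallQH.m a b c * Y.smallQH.m i j k := by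
  show constantCoeff (Z.sc (a, i) (b, j) (c, k)) =
    constantCoeff (X.sc a b c) * constantCoeff (Y.sc i j k)
  rw [← constantCoeff_killCompl (kun X Y), h.killCompl_sc, map_mul, constantCoeff_rename,
    constantCoeff_rename, constantCoeff_killCompl]

theorem basis_mul (a : ι₁) (i : ι₂) :
    Z.smallQH.basis (a, Y.one) * Z.smallQH.basis (X.one, i) = Z.smallQH.basis (a, i) := by
  funext ⟨c, k⟩
  rw [AlgStr.basis_mul_basis, h.small_m, AlgStr.basis_apply]
  have h1 : X.smallQH.m a X.one c = if a = c then 1 else 0 := by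
    rw [X.smallQH.comm]
    exact X.smallQH.one_mul a c
  have h2 : Y.smallQH.m Y.one i k = if i = k then 1 else 0 := Y.smallQH.one_mul i k
  rw [h1, h2]
  by_cases ha : a = c
  · by_cases hi : i = k
    · rw [if_pos ha, if_pos hi, if_pos (by rw [ha, hi]), mul_one]
    · rw [if_neg hi, mul_zero, if_neg (fun h => hi (Prod.mk.inj h).2)]
  · rw [if_neg ha, zero_mul, if_neg (fun h => ha (Prod.mk.inj h).1)]

theorem generates : Algebra.adjoin ℂ ((Set.range fun a => Z.smallQH.basis (kun X Y a)) ∪
    {Z.c1class}) = ⊤ := by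
  rw [eq_top_iff]
  intro x _
  set S := Algebra.adjoin ℂ ((Set.range fun a => Z.smallQH.basis (kun X Y a)) ∪ {Z.c1class})
  have h1 : ∀ a, Z.smallQH.basis (a, Y.one) ∈ S := fun a =>
    Algebra.subset_adjoin (Or.inl ⟨Sum.inl a, rfl⟩)
  have h2 : ∀ i, Z.smallQH.basis (X.one, i) ∈ S := by
    intro i
    by_cases hi : i = Y.one
    · rw [hi]; exact h1 X.one
    · exact Algebra.subset_adjoin (Or.inl ⟨Sum.inr ⟨i, hi⟩, rfl⟩)
  rw [← Z.smallQH.basis.sum_repr x]
  refine Subalgebra.sum_mem _ fun p _ => Subalgebra.smul_mem _ ?_ _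
  obtain ⟨a, i⟩ := p
  rw [← h.basis_mul a i]
  exact mul_mem (h1 a) (h2 i)

/-- The quantum cohomology of a product is generically semisimple iff that of both factors is. -/
theorem isGenericallySemisimple_iff :
    Z.IsGenericallySemisimple ↔ X.IsGenericallySemisimple ∧ Y.IsGenericallySemisimple := by
  rw [Z.isGenericallySemisimple_iff, X.isGenericallySemisimple_iff, Y.isGenericallySemisimple_iff,
    AlgStr.genericallySemisimple_iff, AlgStr.genericallySemisimple_iff,
    AlgStr.genericallySemisimple_iff, ← h.disc_res]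
  constructor
  · exact disc_res_ne_zero h.generates
  · intro h1 h2
    apply h1
    have h3 := AlgStr.disc_map Z.QH (killCompl (R := ℂ) (kun X Y)).toRingHom
    rw [h3, h2, map_zero]

theorem srk_eq : srk Z.QH = srk X.QH * srk Y.QH := by
  obtain ⟨Θ, hΘ⟩ := exists_eulerType (e := kun X Y) h.generates
  rw [← hΘ.srk_res]
  set A := X.QH.map (rename (R := ℂ)
    (Function.Embedding.inl : ι₁ ↪ ι₁ ⊕ {i : ι₂ // i ≠ Y.one})).toRingHom with hA
  set B' := Y.QH.map (killCompl (R := ℂ) (sub Y)).toRingHom with hB'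
  set B := B'.map (rename (R := ℂ) (Function.Embedding.inr :
    {i : ι₂ // i ≠ Y.one} ↪ ι₁ ⊕ {i : ι₂ // i ≠ Y.one})).toRingHom with hB
  have h1 : trm (Z.QH.map (killCompl (R := ℂ) (kun X Y)).toRingHom) = trm A ⊗ₖ trm B :=
    trm_tensor A B _ fun a b c i j k => h.killCompl_sc a b c i j k
  have hA0 : srk A = srk X.QH := srk_map_of_injective _ _ (rename_injective _)
  have hB0 : srk B = srk B' := srk_map_of_injective _ _ (rename_injective _)
  have hB1 : srk B' = srk Y.QH := by
    have h2 : srk (B'.map (rename (R := ℂ) (sub Y)).toRingHom) = srk B' :=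
      srk_map_of_injective _ _ (rename_injective _)
    have h3 : trm (B'.map (rename (R := ℂ) (sub Y)).toRingHom) = trm Y.QH :=
      trm_congr _ _ fun i j k => rename_sub_sc Y i j k
    rw [← h2, srk, srk, h3]
  have h2 : srk (Z.QH.map (killCompl (R := ℂ) (kun X Y)).toRingHom) = srk A * srk B := by
    rw [srk, srk, srk, h1, grk_kronecker]
  rw [h2, hA0, hB0, hB1]

/-- The number of characters is multiplicative. -/
theorem traceRank_eq : traceRank Z = traceRank X * traceRank Y := by
  rw [traceRank_eq_srk, traceRank_eq_srk, traceRank_eq_srk, h.srk_eq]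

end IsProduct

end Pool.Agent.Helper1.DubProd
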