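import Pool.Agent.Helper1.DubProd.Ten
import Pool.Agent.Helper1.DubProd.Defs
import Pool.Agent.Helper18.Dub.QH

/-!
# Quantum cohomology of a product on the Künneth locus
-/

open scoped BigOperators
open Finset MvPowerSeries

namespace Pool.Agent.Helper1.DubProd

open Pool.Agent.Helper18.Dub

variable {ι₁ ι₂ : Type} [Fintype ι₁] [DecidableEq ι₁] [Fintype ι₂] [DecidableEq ι₂]

namespace IsProduct

variable {X : FanoGW ι₁} {Y : FanoGW ι₂} {Z : FanoGW (ι₁ × ι₂)} (h : IsProduct X Y Z)

include h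

theorem corr (a b c : ι₁) (i j k : ι₂) (s : Multiset ι₁) (t : Multiset ι₂) :
    Z.corr ({(a, i), (b, j), (c, k)} + (s.map fun x => (x, Y.one)) +
      (t.map fun y => (X.one, y))) = X.corr ({a, b, c} + s) * Y.corr ({i, j, k} + t) := by
  rw [GWData.corr, ← finsum_comp_equiv h.curve]
  have h1 : ∀ p : X.Curve × Y.Curve, Z.inv (h.curve p) ({(a, i), (b, j), (c, k)} +
      (s.map fun x => (x, Y.one)) + (t.map fun y => (X.one, y))) =
      X.inv p.1 ({a, b, c} + s) * Y.inv p.2 ({i, j, k} + t) := fun p => h.inv _ _ _ _ _ _ _ _ _ _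
  rw [finsum_congr h1]
  have hX := X.corr_congr_support (s := {a, b, c} + s)
  have hY := Y.corr_congr_support (s := {i, j, k} + t)
  have hfin : (Function.support fun p : X.Curve × Y.Curve =>
      X.inv p.1 ({a, b, c} + s) * Y.inv p.2 ({i, j, k} + t)).Finite := by
    refine (hX.prod hY).subset ?_
    intro p hp
    rw [Function.mem_support] at hp
    exact ⟨left_ne_zero_of_mul hp, right_ne_zero_of_mul hp⟩
  rw [finsum_curry _ hfin]
  rw [GWData.corr, GWData.corr, finsum_mul]
  refine finsum_congr fun β => ?_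
  rw [mul_finsum]

theorem pairInv (c k l l') :
    Z.pair⁻¹ (c, k) (l, l') = X.pair⁻¹ c l * Y.pair⁻¹ k l' := by
  have h1 : Z.pair = Matrix.kroneckerMap (· * ·) X.pair Y.pair := by
    ext ⟨a, i⟩ ⟨b, j⟩
    rw [h.pair]; rfl
  rw [h1, Matrix.inv_kronecker]
  rfl

end IsProduct

theorem disc_congr {R : Type*} [CommRing R] {ι : Type*} [Fintype ι] [DecidableEq ι]
    (T S : AlgStr R ι) (hTS : ∀ i j k, T.m i j k = S.m i j k) : T.disc = S.disc := by
  have h1 : Algebra.traceMatrix R T.basis = Algebra.traceMatrix R S.basis := by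
    ext1 i j
    rw [Algebra.traceMatrix_apply, Algebra.traceMatrix_apply, AlgStr.traceForm_basis,
      AlgStr.traceForm_basis]
    simp only [hTS]
  rw [AlgStr.disc, AlgStr.disc, Algebra.discr_def, Algebra.discr_def, h1]

/-- the inclusion of the Künneth directions (the unit direction is taken from the first factor) -/
def kun (X : FanoGW ι₁) (Y : FanoGW ι₂) : ι₁ ⊕ {i : ι₂ // i ≠ Y.one} ↪ ι₁ × ι₂ where
  toFun := Sum.elim (fun a => (a, Y.one)) (fun i => (X.one, i.1))
  inj' := by
    rintro (a | i) (b | j) hab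
    · simpa using hab
    · exfalso
      have := congrArg Prod.snd hab
      exact j.2 this.symm
    · exfalso
      have := congrArg Prod.snd hab
      exact i.2 this
    · have := congrArg Prod.snd hab
      exact congrArg Sum.inr (Subtype.ext this)

theorem kun_inl (X : FanoGW ι₁) (Y : FanoGW ι₂) (a : ι₁) : kun X Y (Sum.inl a) = (a, Y.one) := rfl

theorem kun_inr (X : FanoGW ι₁) (Y : FanoGW ι₂) (i : {i : ι₂ // i ≠ Y.one}) :
    kun X Y (Sum.inr i) = (X.one, i.1) := rfl

/-- the inclusion of the non-unit classes -/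
def sub (Y : FanoGW ι₂) : {i : ι₂ // i ≠ Y.one} ↪ ι₂ := Function.Embedding.subtype _

theorem toMultiset_split {α β : Type*} [DecidableEq α] [DecidableEq β] (m : α ⊕ β →₀ ℕ) :
    Finsupp.toMultiset m =
      (Finsupp.toMultiset (m.comapDomain Sum.inl Sum.inl_injective.injOn)).map Sum.inl +
        (Finsupp.toMultiset (m.comapDomain Sum.inr Sum.inr_injective.injOn)).map Sum.inr := by
  ext x
  rw [Multiset.count_add, Finsupp.count_toMultiset]
  rcases x with a | b
  · rw [Multiset.count_map_eq_count' _ _ Sum.inl_injective, Finsupp.count_toMultiset,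
      Multiset.count_eq_zero_of_notMem, add_zero]
    · rfl
    · intro hm
      rw [Multiset.mem_map] at hm
      obtain ⟨c, _, hc⟩ := hm
      cases hc
  · rw [Multiset.count_map_eq_count' _ _ Sum.inr_injective, Finsupp.count_toMultiset,
      Multiset.count_eq_zero_of_notMem, zero_add]
    · rfl
    · intro hm
      rw [Multiset.mem_map] at hm
      obtain ⟨c, _, hc⟩ := hm
      cases hc

theorem prod_factorial_embDomain {α β : Type*} [Fintype α] [Fintype β] (e : α ↪ β)
    (m : α →₀ ℕ) :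
    ∏ x : β, (((Finsupp.embDomain e m) x).factorial : ℂ) = ∏ a : α, ((m a).factorial : ℂ) := by
  classical
  rw [← Finset.prod_subset (Finset.subset_univ (Finset.univ.map e)), Finset.prod_map]
  · refine Finset.prod_congr rfl fun a _ => ?_
    rw [Finsupp.embDomain_apply_self]
  · intro x _ hx
    rw [Finsupp.embDomain_of_notMem_range]
    · simp
    · rintro ⟨a, rfl⟩
      exact hx (Finset.mem_map_of_mem _ (Finset.mem_univ a))

/-- `φ_1` does not occur in the structure constants. -/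
theorem coeff_sc_eq_zero (Y : FanoGW ι₂) (i j k : ι₂) (m : ι₂ →₀ ℕ) (hm : m Y.one ≠ 0) :
    coeff m (Y.sc i j k) = 0 := by
  rw [FanoGW.sc, map_sum]
  refine Finset.sum_eq_zero fun l _ => ?_
  rw [coeff_C_mul, FanoGW.coeff_ser]
  have h1 : Y.one ∈ Finsupp.toMultiset m := by
    rw [Finsupp.mem_toMultiset, Finsupp.mem_support_iff]
    exact hm
  obtain ⟨t, ht⟩ := Multiset.exists_cons_of_mem h1
  rw [ht, Multiset.add_cons, Y.corr_unit_many, zero_div, mul_zero]
  rw [Multiset.card_add]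
  have h3 : Multiset.card ({i, j, l} : Multiset ι₂) = 3 := rfl
  omega

theorem rename_sub_sc (Y : FanoGW ι₂) (i j k : ι₂) :
    rename (sub Y) (killCompl (sub Y) (Y.sc i j k)) = Y.sc i j k := by
  refine rename_killCompl _ _ fun m hm => coeff_sc_eq_zero Y i j k m fun h0 => hm ?_
  refine ⟨m.comapDomain (sub Y) (sub Y).injective.injOn, ?_⟩
  rw [Finsupp.embDomain_comapDomain]
  intro x hx
  refine ⟨⟨x, ?_⟩, rfl⟩
  rintro rfl
  exact (Finsupp.mem_support_iff.1 hx) h0

namespace IsProduct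

variable {X : FanoGW ι₁} {Y : FanoGW ι₂} {Z : FanoGW (ι₁ × ι₂)} (h : IsProduct X Y Z)

include h

theorem killCompl_sc (a b c : ι₁) (i j k : ι₂) :
    killCompl (kun X Y) (Z.sc (a, i) (b, j) (c, k)) =
      rename (Function.Embedding.inl : ι₁ ↪ ι₁ ⊕ {i : ι₂ // i ≠ Y.one}) (X.sc a b c) *
        rename (Function.Embedding.inr : {i : ι₂ // i ≠ Y.one} ↪ ι₁ ⊕ {i : ι₂ // i ≠ Y.one})
          (killCompl (sub Y) (Y.sc i j k)) := by
  ext m
  rw [coeff_rename_mul, coeff_killCompl, coeff_killCompl]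
  set m1 := m.comapDomain Sum.inl Sum.inl_injective.injOn with hm1
  set m2 := m.comapDomain Sum.inr Sum.inr_injective.injOn with hm2
  rw [FanoGW.sc, FanoGW.sc, FanoGW.sc, map_sum, map_sum, map_sum, Fintype.sum_prod_type,
    Finset.sum_mul_sum]
  refine Finset.sum_congr rfl fun l _ => Finset.sum_congr rfl fun l' _ => ?_
  rw [coeff_C_mul, coeff_C_mul, coeff_C_mul, FanoGW.coeff_ser, FanoGW.coeff_ser,
    FanoGW.coeff_ser, h.pairInv, prod_factorial_embDomain, prod_factorial_embDomain,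
    Fintype.prod_sum_type]
  have h1 : Finsupp.toMultiset (Finsupp.embDomain (kun X Y) m) =
      ((Finsupp.toMultiset m1).map fun x => (x, Y.one)) +
        ((Finsupp.toMultiset (Finsupp.embDomain (sub Y) m2)).map fun y => (X.one, y)) := by
    rw [Finsupp.embDomain_eq_mapDomain, Finsupp.embDomain_eq_mapDomain, ← Finsupp.toMultiset_map,
      ← Finsupp.toMultiset_map, toMultiset_split m, Multiset.map_add, Multiset.map_map,
      Multiset.map_map, Multiset.map_map]
    rfl
  rw [h1, ← add_assoc, h.corr]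
  have h2 : ∀ a, m1 a = m (Sum.inl a) := fun a => rfl
  have h3 : ∀ a, m2 a = m (Sum.inr a) := fun a => rfl
  simp only [h2, h3]
  ring

theorem disc_res : (Z.QH.map (killCompl (R := ℂ) (kun X Y)).toRingHom).disc ≠ 0 ↔
    X.QH.disc ≠ 0 ∧ Y.QH.disc ≠ 0 := by
  set A := X.QH.map (rename (R := ℂ)
    (Function.Embedding.inl : ι₁ ↪ ι₁ ⊕ {i : ι₂ // i ≠ Y.one})).toRingHom with hA
  set B' := Y.QH.map (killCompl (R := ℂ) (sub Y)).toRingHom with hB'
  set B := B'.map (rename (R := ℂ) (Function.Embedding.inr :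
    {i : ι₂ // i ≠ Y.one} ↪ ι₁ ⊕ {i : ι₂ // i ≠ Y.one})).toRingHom with hB
  have h1 : (Z.QH.map (killCompl (R := ℂ) (kun X Y)).toRingHom).disc =
      A.disc ^ Fintype.card ι₂ * B.disc ^ Fintype.card ι₁ :=
    disc_tensor A B _ fun a b c i j k => h.killCompl_sc a b c i j k
  have hA0 : A.disc ≠ 0 ↔ X.QH.disc ≠ 0 := by
    rw [hA, AlgStr.disc_map]
    exact map_ne_zero_iff _ (rename_injective _)
  have hB0 : B.disc ≠ 0 ↔ B'.disc ≠ 0 := by
    rw [hB, AlgStr.disc_map]
    exact map_ne_zero_iff _ (rename_injective _)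
  have hB1 : B'.disc ≠ 0 ↔ Y.QH.disc ≠ 0 := by
    have h2 : Y.QH.disc = rename (R := ℂ) (sub Y) B'.disc := by
      have h3 : (B'.map (rename (R := ℂ) (sub Y)).toRingHom).disc = Y.QH.disc :=
        disc_congr _ _ fun i j k => rename_sub_sc Y i j k
      rw [← h3]
      exact AlgStr.disc_map _ _
    rw [h2]
    exact (map_ne_zero_iff _ (rename_injective _)).symm
  have hn1 : Nonempty ι₂ := ⟨Y.one⟩
  have hn2 : Nonempty ι₁ := ⟨X.one⟩
  have hc1 : Fintype.card ι₂ ≠ 0 := Fintype.card_ne_zero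
  have hc2 : Fintype.card ι₁ ≠ 0 := Fintype.card_ne_zero
  rw [h1, mul_ne_zero_iff, pow_ne_zero_iff hc1, pow_ne_zero_iff hc2, hA0, hB0, hB1]

end IsProduct

end Pool.Agent.Helper1.DubProd
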