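import Pool.Agent.Helper18.Dub.Gen

/-!
# Tensor products of algebras given by structure constants, and power series in two groups of
variables
-/

open scoped BigOperators
open Finset MvPowerSeries

namespace Pool.Agent.Helper1.DubProd

open Pool.Agent.Helper18.Dub

section disc

variable {R : Type*} [CommRing R] {α β : Type*} [Fintype α] [DecidableEq α] [Fintype β]
  [DecidableEq β]

/-- The discriminant of a tensor product. -/
theorem disc_tensor (A : AlgStr R α) (B : AlgStr R β) (T : AlgStr R (α × β))
    (h : ∀ a b c i j k, T.m (a, i) (b, j) (c, k) = A.m a b c * B.m i j k) :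
    T.disc = A.disc ^ Fintype.card β * B.disc ^ Fintype.card α := by
  rw [AlgStr.disc, AlgStr.disc, AlgStr.disc, Algebra.discr_def, Algebra.discr_def,
    Algebra.discr_def, ← Matrix.det_kronecker]
  congr 1
  ext ⟨a, i⟩ ⟨b, j⟩
  rw [Matrix.kroneckerMap_apply, Algebra.traceMatrix_apply, Algebra.traceMatrix_apply,
    Algebra.traceMatrix_apply, AlgStr.traceForm_basis, AlgStr.traceForm_basis,
    AlgStr.traceForm_basis]
  simp only [Fintype.sum_prod_type, h]
  rw [Finset.sum_mul_sum]
  refine Finset.sum_congr rfl fun c _ => Finset.sum_congr rfl fun k _ => ?_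
  rw [Finset.sum_mul_sum]
  refine Finset.sum_congr rfl fun d _ => Finset.sum_congr rfl fun l _ => ?_
  ring

end disc

section series

variable {R : Type*} [CommRing R] {α β : Type*}

theorem coeff_rename_mul (F : MvPowerSeries α R) (G : MvPowerSeries β R) (m : α ⊕ β →₀ ℕ) :
    coeff m (rename (Function.Embedding.inl : α ↪ α ⊕ β) F *
      rename (Function.Embedding.inr : β ↪ α ⊕ β) G) =
      coeff (m.comapDomain Sum.inl Sum.inl_injective.injOn) F *
        coeff (m.comapDomain Sum.inr Sum.inr_injective.injOn) G := by
  classical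
  set m1 := m.comapDomain Sum.inl Sum.inl_injective.injOn with hm1
  set m2 := m.comapDomain Sum.inr Sum.inr_injective.injOn with hm2
  have hm : Finsupp.embDomain (Function.Embedding.inl : α ↪ α ⊕ β) m1 +
      Finsupp.embDomain (Function.Embedding.inr : β ↪ α ⊕ β) m2 = m := by
    ext x
    rcases x with a | b
    · rw [Finsupp.add_apply, show (Sum.inl a : α ⊕ β) = Function.Embedding.inl a from rfl,
        Finsupp.embDomain_apply_self, Finsupp.embDomain_of_notMem_range _ _ (Function.Embedding.inl a)
        (by rintro ⟨b, hb⟩; cases hb), add_zero]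
      rfl
    · rw [Finsupp.add_apply, show (Sum.inr b : α ⊕ β) = Function.Embedding.inr b from rfl,
        Finsupp.embDomain_apply_self, Finsupp.embDomain_of_notMem_range _ _ (Function.Embedding.inr b)
        (by rintro ⟨b, hb⟩; cases hb), zero_add]
      rfl
  rw [coeff_mul, Finset.sum_eq_single (Finsupp.embDomain (Function.Embedding.inl : α ↪ α ⊕ β) m1,
    Finsupp.embDomain (Function.Embedding.inr : β ↪ α ⊕ β) m2)]
  · rw [coeff_embDomain_rename, coeff_embDomain_rename]
  · rintro ⟨p, q⟩ hpq hne
    rw [Finset.HasAntidiagonal.mem_antidiagonal] at hpq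
    by_contra hnz
    have hp : p ∈ Set.range (Finsupp.mapDomain (Function.Embedding.inl : α ↪ α ⊕ β)) := by
      by_contra hp
      apply hnz
      rw [coeff_rename_eq_zero _ _ hp, zero_mul]
    have hq : q ∈ Set.range (Finsupp.mapDomain (Function.Embedding.inr : β ↪ α ⊕ β)) := by
      by_contra hq
      apply hnz
      rw [coeff_rename_eq_zero _ _ hq, mul_zero]
    obtain ⟨p', rfl⟩ := hp
    obtain ⟨q', rfl⟩ := hq
    rw [← Finsupp.embDomain_eq_mapDomain, ← Finsupp.embDomain_eq_mapDomain] at hpq hne
    simp only at hpq
    apply hne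
    have h1 : p' = m1 := by
      ext a
      have := DFunLike.congr_fun hpq (Function.Embedding.inl a)
      rw [Finsupp.add_apply, Finsupp.embDomain_apply_self, Finsupp.embDomain_of_notMem_range _ _
        (Function.Embedding.inl a) (by rintro ⟨b, hb⟩; cases hb), add_zero] at this
      rw [this]; rfl
    have h2 : q' = m2 := by
      ext b
      have := DFunLike.congr_fun hpq (Function.Embedding.inr b)
      rw [Finsupp.add_apply, Finsupp.embDomain_apply_self, Finsupp.embDomain_of_notMem_range _ _
        (Function.Embedding.inr b) (by rintro ⟨b, hb⟩; cases hb), zero_add] at this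
      rw [this]; rfl
    rw [h1, h2]
  · intro h
    exact absurd (Finset.HasAntidiagonal.mem_antidiagonal.2 hm) h

/-- A power series which does not involve the variables outside the range of `e`. -/
theorem rename_killCompl {σ τ : Type*} (e : σ ↪ τ) (F : MvPowerSeries τ R)
    (h : ∀ m : τ →₀ ℕ, m ∉ Set.range (Finsupp.embDomain e) → coeff m F = 0) :
    rename e (killCompl e F) = F := by
  classical
  ext m
  by_cases hm : m ∈ Set.range (Finsupp.embDomain e)
  · obtain ⟨m', rfl⟩ := hm
    rw [coeff_embDomain_rename, coeff_killCompl]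
  · rw [h m hm, coeff_rename_eq_zero]
    rintro ⟨m', rfl⟩
    apply hm
    exact ⟨m', by rw [Finsupp.embDomain_eq_mapDomain]⟩

end series

end Pool.Agent.Helper1.DubProd
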